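import Mathlib

set_option autoImplicit false

namespace Pool.Agent.Helper19

/-- Dirichlet approximation in lowest terms. -/
lemma exists_approx (y : ℝ) (h : ℕ) (hh : 0 < h) :
    ∃ (T : ℕ) (s : ℤ), 0 < T ∧ T ≤ 4 * h ∧ IsCoprime (T : ℤ) s ∧
      |(T : ℝ) * y - s| ≤ 1 / (4 * h) := by
  obtain ⟨q, hq1, hq2⟩ := Real.exists_rat_abs_sub_le_and_den_le y (n := 4 * h) (by omega)
  refine ⟨q.den, q.num, q.den_pos, hq2, ?_, ?_⟩
  · have := q.reduced
    exact (Int.isCoprime_iff_gcd_eq_one.mpr (by simpa [Int.gcd, Nat.Coprime] using this)).symm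
  · have hd : (0 : ℝ) < q.den := by exact_mod_cast q.den_pos
    have h1 : (q.den : ℝ) * y - q.num = q.den * (y - q) := by
      have : (q : ℝ) = q.num / q.den := by exact_mod_cast (Rat.num_div_den q).symm
      rw [this]; field_simp
    rw [h1, abs_mul, abs_of_pos hd]
    have hh' : (0 : ℝ) < h := by exact_mod_cast hh
    calc (q.den : ℝ) * |y - q| ≤ q.den * (1 / (((4 * h : ℕ) + 1 : ℝ) * q.den)) := by gcongr
      _ = 1 / ((4 * h : ℕ) + 1 : ℝ) := by field_simp
      _ ≤ 1 / (4 * h) := by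
        push_cast
        apply one_div_le_one_div_of_le <;> linarith

end Pool.Agent.Helper19
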