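import Mathlib

set_option autoImplicit false

namespace Pool.Agent.Helper19

open Classical in
/-- Counting multiples of `y` close to an integer. -/
lemma count_le (y δ : ℝ) (h T : ℕ) (s : ℤ) (hT : 0 < T) (hTh : T ≤ 4 * h)
    (hco : IsCoprime (T : ℤ) s) (happ : |(T : ℝ) * y - s| ≤ 1 / (4 * h))
    (hδ : 1 / (4 * T) ≤ δ) :
    (((Finset.Ico 1 h).filter (fun j : ℕ => ∃ k : ℤ, |(j : ℝ) * y - k| < δ)).card : ℝ)
      ≤ 40 * h * δ := by
  set A := (Finset.Ico 1 h).filter (fun j : ℕ => ∃ k : ℤ, |(j : ℝ) * y - k| < δ) with hA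
  have hT' : (0 : ℝ) < T := by exact_mod_cast hT
  have hh : 0 < h := by omega
  have hh' : (0 : ℝ) < h := by exact_mod_cast hh
  have hTh' : (T : ℝ) ≤ 4 * h := by exact_mod_cast hTh
  have hδT : 1 / 4 ≤ T * δ := by
    have := mul_le_mul_of_nonneg_left hδ hT'.le
    calc (1 : ℝ) / 4 = T * (1 / (4 * T)) := by field_simp
      _ ≤ T * δ := this
  have hδ0 : 0 < δ := by
    by_contra hcon
    push Not at hcon
    nlinarith
  have hk : ∀ j ∈ A, ∃ k : ℤ, |(j : ℝ) * y - k| < δ := by
    intro j hj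
    exact (Finset.mem_filter.mp hj).2
  choose! k hk using hk
  set W : ℤ := ⌊(T : ℝ) * δ + 1 / 4⌋ with hW
  have hmem : ∀ j ∈ A, ((j : ℤ) * s - k j * T, j / T) ∈
      (Finset.Icc (-W) W) ×ˢ (Finset.range (h / T + 1)) := by
    intro j hj
    have hj1 := (Finset.mem_Ico.mp (Finset.mem_filter.mp hj).1)
    have hjh : (j : ℝ) ≤ h := by exact_mod_cast hj1.2.le
    rw [Finset.mem_product]
    constructor
    · have habs : |(((j : ℤ) * s - k j * T : ℤ) : ℝ)| ≤ T * δ + 1 / 4 := by
        have e : (((j : ℤ) * s - k j * T : ℤ) : ℝ)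
            = T * ((j : ℝ) * y - k j) - j * ((T : ℝ) * y - s) := by
          push_cast; ring
        rw [e]
        calc |(T : ℝ) * ((j : ℝ) * y - k j) - j * ((T : ℝ) * y - s)|
            ≤ |(T : ℝ) * ((j : ℝ) * y - k j)| + |(j : ℝ) * ((T : ℝ) * y - s)| := abs_sub _ _
          _ = T * |(j : ℝ) * y - k j| + j * |(T : ℝ) * y - s| := by
              rw [abs_mul, abs_mul, abs_of_pos hT', abs_of_nonneg (Nat.cast_nonneg j : (0:ℝ) ≤ (j:ℝ))]
          _ ≤ T * δ + h * (1 / (4 * h)) := by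
              have := (hk j hj).le
              gcongr
          _ = T * δ + 1 / 4 := by field_simp
      have h2 := abs_le.mp habs
      simp only [Finset.mem_Icc]
      constructor
      · have : (-W : ℤ) ≤ (j : ℤ) * s - k j * T := by
          have h3 : -(((j : ℤ) * s - k j * T : ℤ) : ℝ) ≤ T * δ + 1 / 4 := by linarith [h2.1]
          have h4 : -((j : ℤ) * s - k j * T) ≤ W := by
            rw [hW, Int.le_floor]
            push_cast at h3 ⊢
            linarith
          linarith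
        exact this
      · rw [hW, Int.le_floor]
        exact h2.2
    · rw [Finset.mem_range]
      have : j / T ≤ h / T := Nat.div_le_div_right (by omega)
      omega
  have hinj : Set.InjOn (fun j : ℕ => ((j : ℤ) * s - k j * T, j / T)) (A : Set ℕ) := by
    intro i hi j hj hij
    simp only [Prod.mk.injEq] at hij
    obtain ⟨h1, h2⟩ := hij
    have h3 : (T : ℤ) ∣ ((i : ℤ) - j) * s := ⟨k i - k j, by linarith⟩
    have h4 : (T : ℤ) ∣ ((i : ℤ) - j) := hco.dvd_of_dvd_mul_right h3
    have h5 : (i : ℤ) % T = (j : ℤ) % T :=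
      Int.emod_eq_emod_iff_emod_sub_eq_zero.mpr (Int.emod_eq_zero_of_dvd h4)
    have h6 : i % T = j % T := by exact_mod_cast h5
    have := Nat.div_add_mod i T
    have := Nat.div_add_mod j T
    rw [h2, h6] at *
    omega
  have hcard : A.card ≤ ((Finset.Icc (-W) W) ×ˢ (Finset.range (h / T + 1))).card :=
    Finset.card_le_card_of_injOn _ hmem hinj
  rw [Finset.card_product, Finset.card_range, Int.card_Icc] at hcard
  have hW0 : 0 ≤ W := by
    rw [hW]; apply Int.floor_nonneg.mpr; positivity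
  have hWle : (W : ℝ) ≤ T * δ + 1 / 4 := Int.floor_le _
  have hc1 : (((W + 1 - -W).toNat : ℕ) : ℝ) = 2 * W + 1 := by
    have : (((W + 1 - -W).toNat : ℕ) : ℤ) = 2 * W + 1 := by
      rw [Int.toNat_of_nonneg (by omega)]; ring
    exact_mod_cast this
  have hc2 : ((h / T + 1 : ℕ) : ℝ) ≤ h / T + 1 := by
    push_cast
    have : ((h / T : ℕ) : ℝ) ≤ (h : ℝ) / T := Nat.cast_div_le
    linarith
  calc (A.card : ℝ) ≤ (((W + 1 - -W).toNat * (h / T + 1) : ℕ) : ℝ) := by exact_mod_cast hcard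
    _ = (((W + 1 - -W).toNat : ℕ) : ℝ) * ((h / T + 1 : ℕ) : ℝ) := by push_cast; ring
    _ ≤ (2 * W + 1) * ((h : ℝ) / T + 1) := by
        rw [hc1]
        have : (0 : ℝ) ≤ W := by exact_mod_cast hW0
        gcongr
    _ ≤ (8 * (T * δ)) * ((h : ℝ) / T + 1) := by
        gcongr
        linarith
    _ = 8 * δ * (h + T) := by field_simp
    _ ≤ 8 * δ * (5 * h) := by gcongr; linarith
    _ = 40 * h * δ := by ring

end Pool.Agent.Helper19
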