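import Mathlib

set_option autoImplicit false

open MeasureTheory

namespace Pool.Agent.Helper19

/-- Measure of the part of the one-dimensional approximation set coming from numerators in one
residue class. -/
lemma measure_res (y α : ℝ) (u m : ℕ) (c : ℤ) (hm : 0 < m) (hmu : m ≤ u) (hα0 : 0 ≤ α)
    (hα : α ≤ 1 / 2) :
    volume {x : ℝ | x ∈ Set.Icc (0 : ℝ) 1 ∧ ∃ a : ℤ, (m : ℤ) ∣ a - c ∧ |u * x - a - y| < α}
      ≤ ENNReal.ofReal (6 * α / m) := by
  have hm' : (0 : ℝ) < m := by exact_mod_cast hm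
  have hmu' : (m : ℝ) ≤ u := by exact_mod_cast hmu
  have hu' : (0 : ℝ) < u := lt_of_lt_of_le hm' hmu'
  have hm1 : (1 : ℝ) ≤ m := by exact_mod_cast hm
  set X0 : ℝ := (-y - α - c) / m with hX0
  set X1 : ℝ := (u - y + α - c) / m with hX1
  set L : Finset ℤ := Finset.Ioo ⌊X0⌋ ⌈X1⌉ with hL
  have hsub : {x : ℝ | x ∈ Set.Icc (0 : ℝ) 1 ∧ ∃ a : ℤ, (m : ℤ) ∣ a - c ∧ |u * x - a - y| < α}
      ⊆ ⋃ l ∈ L, Set.Ioo ((c + m * l + y - α) / u) ((c + m * l + y + α) / u) := by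
    rintro x ⟨⟨hx0, hx1⟩, a, ⟨l, hl⟩, hxa⟩
    have ha : (a : ℝ) = c + m * l := by
      have : a = c + m * l := by linarith
      exact_mod_cast this
    rw [abs_lt] at hxa
    rw [ha] at hxa
    simp only [Set.mem_iUnion, Set.mem_Ioo]
    refine ⟨l, ?_, ?_, ?_⟩
    · rw [hL, Finset.mem_Ioo]
      constructor
      · rw [Int.floor_lt, hX0, div_lt_iff₀ hm']
        nlinarith
      · rw [Int.lt_ceil, hX1, lt_div_iff₀ hm']
        nlinarith
    · rw [div_lt_iff₀ hu']; linarith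
    · rw [lt_div_iff₀ hu']; linarith
  have hLcard : (L.card : ℝ) ≤ 3 * u / m := by
    rw [hL, Int.card_Ioo]
    have hX01 : X1 - X0 = (u + 2 * α) / m := by
      rw [hX0, hX1]; ring
    have hpos : 0 < X1 - X0 := by rw [hX01]; positivity
    have h1 : ((⌈X1⌉ : ℤ) : ℝ) < X1 + 1 := Int.ceil_lt_add_one _
    have h2 : X0 - 1 < ((⌊X0⌋ : ℤ) : ℝ) := Int.sub_one_lt_floor _
    have h3 : (((⌈X1⌉ - ⌊X0⌋ - 1).toNat : ℕ) : ℝ) ≤ X1 - X0 + 1 := by
      have h4 : (((⌈X1⌉ - ⌊X0⌋ - 1).toNat : ℕ) : ℤ) = max (⌈X1⌉ - ⌊X0⌋ - 1) 0 :=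
        Int.toNat_eq_max _
      have h5 : (((⌈X1⌉ - ⌊X0⌋ - 1).toNat : ℕ) : ℝ) = max ((⌈X1⌉ : ℝ) - ⌊X0⌋ - 1) 0 := by
        have := congrArg (fun z : ℤ => (z : ℝ)) h4
        push_cast at this
        exact this
      rw [h5]
      apply max_le <;> linarith
    calc (((⌈X1⌉ - ⌊X0⌋ - 1).toNat : ℕ) : ℝ) ≤ X1 - X0 + 1 := h3
      _ = (u + 2 * α + m) / m := by rw [hX01]; field_simp
      _ ≤ 3 * u / m := by
        gcongr
        linarith
  calc volume {x : ℝ | x ∈ Set.Icc (0 : ℝ) 1 ∧ ∃ a : ℤ, (m : ℤ) ∣ a - c ∧ |u * x - a - y| < α}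
      ≤ volume (⋃ l ∈ L, Set.Ioo ((c + m * l + y - α) / u) ((c + m * l + y + α) / u)) :=
        measure_mono hsub
    _ ≤ ∑ l ∈ L, volume (Set.Ioo ((c + m * l + y - α) / u) ((c + m * l + y + α) / u)) :=
        measure_biUnion_finset_le _ _
    _ = ∑ l ∈ L, ENNReal.ofReal (2 * α / u) := by
        apply Finset.sum_congr rfl
        intro l _
        rw [Real.volume_Ioo]
        congr 1
        ring
    _ = (L.card : ENNReal) * ENNReal.ofReal (2 * α / u) := by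
        rw [Finset.sum_const, nsmul_eq_mul]
    _ = ENNReal.ofReal (L.card * (2 * α / u)) := by
        rw [ENNReal.ofReal_mul (by positivity), ENNReal.ofReal_natCast]
    _ ≤ ENNReal.ofReal (6 * α / m) := by
        apply ENNReal.ofReal_le_ofReal
        calc (L.card : ℝ) * (2 * α / u) ≤ (3 * u / m) * (2 * α / u) := by gcongr
          _ = 6 * α / m := by field_simp; ring

end Pool.Agent.Helper19
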