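import Mathlib
import Pool.Agent.Helper19.Khin3

set_option autoImplicit false

open MeasureTheory

namespace Pool.Agent.Helper19

/-- One-dimensional overlap estimate. -/
lemma measure_overlap (y α β : ℝ) (g p q : ℕ) (hg : 0 < g) (hp : 0 < p) (hq : 0 < q)
    (hpq : Nat.Coprime p q) (hα0 : 0 ≤ α) (hα : α ≤ 1 / 2) (hβ0 : 0 ≤ β) (hβ : β ≤ 1 / 2) :
    volume {x : ℝ | x ∈ Set.Icc (0 : ℝ) 1 ∧ (∃ a : ℤ, |((g * p : ℕ) : ℝ) * x - a - y| < α) ∧
        ∃ b : ℤ, |((g * q : ℕ) : ℝ) * x - b - y| < β}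
      ≤ ENNReal.ofReal ((2 * (α * q + β * p) + 1) * min (6 * α / p) (6 * β / q)) := by
  have hp' : (0 : ℝ) < p := by exact_mod_cast hp
  have hq' : (0 : ℝ) < q := by exact_mod_cast hq
  set Δ : ℝ := α * q + β * p with hΔ
  have hΔ0 : 0 ≤ Δ := by positivity
  set θ : ℝ := ((q : ℝ) - p) * y with hθ
  set L : Finset ℤ := Finset.Ioo ⌊-θ - Δ⌋ ⌈-θ + Δ⌉ with hL
  -- Bezout
  have hbez : ∀ k : ℤ, ∃ c d : ℤ, (q : ℤ) * c - p * d = k := by
    intro k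
    have hco : IsCoprime (q : ℤ) (p : ℤ) := Nat.isCoprime_iff_coprime.mpr hpq.symm
    obtain ⟨r, s, hrs⟩ := hco
    exact ⟨r * k, -(s * k), by linear_combination k * hrs⟩
  choose c d hcd using hbez
  have hdiv : ∀ (k a b : ℤ), (q : ℤ) * a - p * b = k → (p : ℤ) ∣ a - c k ∧ (q : ℤ) ∣ b - d k := by
    intro k a b hk
    have e : (q : ℤ) * (a - c k) = p * (b - d k) := by
      have := hcd k
      linear_combination hk - this
    have hco : IsCoprime (p : ℤ) (q : ℤ) := Nat.isCoprime_iff_coprime.mpr hpq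
    constructor
    · exact hco.dvd_of_dvd_mul_left ⟨b - d k, e⟩
    · exact hco.symm.dvd_of_dvd_mul_left ⟨a - c k, e.symm⟩
  set D : ℤ → Set ℝ := fun k => {x : ℝ | x ∈ Set.Icc (0 : ℝ) 1 ∧
    (∃ a : ℤ, (p : ℤ) ∣ a - c k ∧ |((g * p : ℕ) : ℝ) * x - a - y| < α) ∧
    (∃ b : ℤ, (q : ℤ) ∣ b - d k ∧ |((g * q : ℕ) : ℝ) * x - b - y| < β)} with hD
  have hsub : {x : ℝ | x ∈ Set.Icc (0 : ℝ) 1 ∧ (∃ a : ℤ, |((g * p : ℕ) : ℝ) * x - a - y| < α) ∧
        ∃ b : ℤ, |((g * q : ℕ) : ℝ) * x - b - y| < β} ⊆ ⋃ k ∈ L, D k := by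
    rintro x ⟨hx, ⟨a, ha⟩, b, hb⟩
    simp only [Set.mem_iUnion]
    refine ⟨(q : ℤ) * a - p * b, ?_, hx, ⟨a, (hdiv _ a b rfl).1, ha⟩, ⟨b, (hdiv _ a b rfl).2, hb⟩⟩
    have key : |(((q : ℤ) * a - p * b : ℤ) : ℝ) + θ| < Δ := by
      have e : (((q : ℤ) * a - p * b : ℤ) : ℝ) + θ
          = p * (((g * q : ℕ) : ℝ) * x - b - y) - q * (((g * p : ℕ) : ℝ) * x - a - y) := by
        rw [hθ]; push_cast; ring
      rw [e]
      calc |(p : ℝ) * (((g * q : ℕ) : ℝ) * x - b - y) - q * (((g * p : ℕ) : ℝ) * x - a - y)|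
          ≤ |(p : ℝ) * (((g * q : ℕ) : ℝ) * x - b - y)|
            + |(q : ℝ) * (((g * p : ℕ) : ℝ) * x - a - y)| := abs_sub _ _
        _ = p * |((g * q : ℕ) : ℝ) * x - b - y| + q * |((g * p : ℕ) : ℝ) * x - a - y| := by
            rw [abs_mul, abs_mul, abs_of_pos hp', abs_of_pos hq']
        _ < p * β + q * α := by
            have := mul_lt_mul_of_pos_left hb hp'
            have := mul_lt_mul_of_pos_left ha hq'
            linarith
        _ = Δ := by rw [hΔ]; ring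
    rw [abs_lt] at key
    rw [hL, Finset.mem_Ioo]
    constructor
    · rw [Int.floor_lt]; linarith [key.1]
    · rw [Int.lt_ceil]; linarith [key.2]
  have hLcard : (L.card : ℝ) ≤ 2 * Δ + 1 := by
    rw [hL, Int.card_Ioo]
    have h1 : ((⌈-θ + Δ⌉ : ℤ) : ℝ) < -θ + Δ + 1 := Int.ceil_lt_add_one _
    have h2 : -θ - Δ - 1 < ((⌊-θ - Δ⌋ : ℤ) : ℝ) := Int.sub_one_lt_floor _
    have h4 : (((⌈-θ + Δ⌉ - ⌊-θ - Δ⌋ - 1).toNat : ℕ) : ℤ) = max (⌈-θ + Δ⌉ - ⌊-θ - Δ⌋ - 1) 0 :=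
      Int.toNat_eq_max _
    have h5 : (((⌈-θ + Δ⌉ - ⌊-θ - Δ⌋ - 1).toNat : ℕ) : ℝ)
        = max ((⌈-θ + Δ⌉ : ℝ) - ⌊-θ - Δ⌋ - 1) 0 := by
      have := congrArg (fun z : ℤ => (z : ℝ)) h4
      push_cast at this
      exact this
    rw [h5]
    apply max_le <;> linarith
  have hDk : ∀ k, volume (D k) ≤ ENNReal.ofReal (min (6 * α / p) (6 * β / q)) := by
    intro k
    have h1 : volume (D k) ≤ ENNReal.ofReal (6 * α / p) := by
      refine le_trans (measure_mono ?_) (measure_res y α (g * p) p (c k) hp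
        (Nat.le_mul_of_pos_left _ hg) hα0 hα)
      rintro x ⟨hx, h1, _⟩
      exact ⟨hx, h1⟩
    have h2 : volume (D k) ≤ ENNReal.ofReal (6 * β / q) := by
      refine le_trans (measure_mono ?_) (measure_res y β (g * q) q (d k) hq
        (Nat.le_mul_of_pos_left _ hg) hβ0 hβ)
      rintro x ⟨hx, _, h1⟩
      exact ⟨hx, h1⟩
    rcases min_choice (6 * α / (p : ℝ)) (6 * β / q) with h | h
    · rw [h]; exact h1
    · rw [h]; exact h2
  calc volume {x : ℝ | x ∈ Set.Icc (0 : ℝ) 1 ∧ (∃ a : ℤ, |((g * p : ℕ) : ℝ) * x - a - y| < α) ∧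
        ∃ b : ℤ, |((g * q : ℕ) : ℝ) * x - b - y| < β}
      ≤ volume (⋃ k ∈ L, D k) := measure_mono hsub
    _ ≤ ∑ k ∈ L, volume (D k) := measure_biUnion_finset_le _ _
    _ ≤ ∑ k ∈ L, ENNReal.ofReal (min (6 * α / p) (6 * β / q)) := Finset.sum_le_sum (fun k _ => hDk k)
    _ = (L.card : ENNReal) * ENNReal.ofReal (min (6 * α / p) (6 * β / q)) := by
        rw [Finset.sum_const, nsmul_eq_mul]
    _ = ENNReal.ofReal (L.card * min (6 * α / p) (6 * β / q)) := by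
        rw [ENNReal.ofReal_mul (by positivity), ENNReal.ofReal_natCast]
    _ ≤ ENNReal.ofReal ((2 * Δ + 1) * min (6 * α / p) (6 * β / q)) := by
        apply ENNReal.ofReal_le_ofReal
        have : 0 ≤ min (6 * α / (p : ℝ)) (6 * β / q) := by positivity
        gcongr

end Pool.Agent.Helper19
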