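import Mathlib
import Pool.Agent.Helper19.Khin1
import Pool.Agent.Helper19.Khin2

set_option autoImplicit false

open MeasureTheory

namespace Pool.Agent.Helper19

/-- `T h / .. ` : reduced Dirichlet approximations of `y` at all levels `h`. -/
def Approx (y : ℝ) (T : ℕ → ℕ) (s : ℕ → ℤ) : Prop :=
  ∀ h : ℕ, 0 < h → 0 < T h ∧ T h ≤ 4 * h ∧ IsCoprime (T h : ℤ) (s h) ∧
    |(T h : ℝ) * y - s h| ≤ 1 / (4 * h)

lemma exists_Approx (y : ℝ) : ∃ (T : ℕ → ℕ) (s : ℕ → ℤ), Approx y T s := by
  have h : ∀ h : ℕ, ∃ (T : ℕ) (s : ℤ), 0 < h → (0 < T ∧ T ≤ 4 * h ∧ IsCoprime (T : ℤ) s ∧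
      |(T : ℝ) * y - s| ≤ 1 / (4 * h)) := by
    intro h
    by_cases hh : 0 < h
    · obtain ⟨T, s, H⟩ := exists_approx y h hh
      exact ⟨T, s, fun _ => H⟩
    · exact ⟨0, 0, fun H => absurd H hh⟩
  choose T s H using h
  exact ⟨T, s, H⟩

/-- `u / gcd(u,v)`. -/
def P (u v : ℕ) : ℕ := u / Nat.gcd u v
/-- `v / gcd(u,v)`. -/
def Q (u v : ℕ) : ℕ := v / Nat.gcd u v
/-- larger one -/
def Hm (u v : ℕ) : ℕ := max (P u v) (Q u v)
/-- difference -/
def Jm (u v : ℕ) : ℕ := max (P u v) (Q u v) - min (P u v) (Q u v)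

lemma P_mul (u v : ℕ) : Nat.gcd u v * P u v = u := Nat.mul_div_cancel' (Nat.gcd_dvd_left u v)
lemma Q_mul (u v : ℕ) : Nat.gcd u v * Q u v = v := Nat.mul_div_cancel' (Nat.gcd_dvd_right u v)
lemma P_pos {u v : ℕ} (hu : 0 < u) : 0 < P u v := by
  rcases Nat.eq_zero_or_pos (P u v) with h | h
  · have := P_mul u v; rw [h] at this; omega
  · exact h
lemma Q_pos {u v : ℕ} (hv : 0 < v) : 0 < Q u v := by
  rcases Nat.eq_zero_or_pos (Q u v) with h | h
  · have := Q_mul u v; rw [h] at this; omega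
  · exact h
lemma PQ_coprime {u v : ℕ} (hu : 0 < u) : Nat.Coprime (P u v) (Q u v) :=
  Nat.coprime_div_gcd_div_gcd (Nat.gcd_pos_of_pos_left _ hu)
lemma PQ_ne {u v : ℕ} (huv : v ≠ u) : P u v ≠ Q u v := by
  intro h
  apply huv
  have h1 := P_mul u v
  have h2 := Q_mul u v
  rw [← h] at h2
  omega
lemma PQ_cross (u v : ℕ) : v * P u v = u * Q u v := by
  have h1 := P_mul u v
  have h2 := Q_mul u v
  calc v * P u v = (Nat.gcd u v * Q u v) * P u v := by rw [h2]
    _ = (Nat.gcd u v * P u v) * Q u v := by ring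
    _ = u * Q u v := by rw [h1]
lemma PQ_inj {u v w : ℕ} (hu : 0 < u) (h1 : P u v = P u w) (h2 : Q u v = Q u w) : v = w := by
  have e1 := PQ_cross u v
  have e2 := PQ_cross u w
  rw [← h1, ← h2, ← e1] at e2
  exact (Nat.eq_of_mul_eq_mul_right (P_pos hu) e2).symm

open Classical in
lemma bad_sum (y1 y2 : ℝ) (T1 T2 : ℕ → ℕ) (s1 s2 : ℕ → ℤ) (hA1 : Approx y1 T1 s1)
    (hA2 : Approx y2 T2 s2) (E0 u : ℕ) (hu : 0 < u) (α : ℝ) (hα0 : 0 < α) (hα : α ≤ 1 / 2)
    (V : Finset ℕ) (hV0 : ∀ v ∈ V, 0 < v) (hVu : ∀ v ∈ V, v ≠ u)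
    (hq : ∀ v ∈ V, α * Q u v < 1 / 2)
    (hbad : ∀ v ∈ V, E0 ≤ Hm u v →
      (1 / (4 * (T1 (Hm u v) : ℝ)) ≤ 2 * α * Hm u v ∧
          ∃ k : ℤ, |(Jm u v : ℝ) * y1 - k| < 2 * α * Hm u v) ∨
      (1 / (4 * (T2 (Hm u v) : ℝ)) ≤ 2 * α * Hm u v ∧
          ∃ k : ℤ, |(Jm u v : ℝ) * y2 - k| < 2 * α * Hm u v)) :
    (∑ v ∈ V, 1 / (Hm u v : ℝ) ^ 2 : ℝ) ≤ 2 * E0 + 162 := by
  set X : ℝ := 1 / (2 * α) with hX
  have hXα : 2 * α * X = 1 := by rw [hX]; field_simp
  have hX1 : 1 ≤ X := by
    rw [hX, le_div_iff₀ (by positivity)]; linarith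
  have hHpos : ∀ v ∈ V, 0 < Hm u v := fun v _ => lt_of_lt_of_le (P_pos hu) (le_max_left _ _)
  have hJ : ∀ v ∈ V, 1 ≤ Jm u v ∧ Jm u v < Hm u v := by
    intro v hv
    have h1 := P_pos (v := v) hu
    have h2 := Q_pos (u := u) (hV0 v hv)
    have h3 := PQ_ne (hVu v hv)
    unfold Jm Hm
    omega
  -- the cardinalities
  have hcard : ∀ h : ℕ, 0 < h → ((V.filter (fun v => Hm u v = h)).card : ℝ) / (h : ℝ) ^ 2 ≤
      (if h < E0 then (2 : ℝ) else 0) + (if (h : ℝ) < X then 320 * α else 0)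
        + (if X ≤ (h : ℝ) then X * ((h : ℝ) ^ 2)⁻¹ else 0) := by
    intro h hh
    have hh' : (0 : ℝ) < h := by exact_mod_cast hh
    have hh1 : (1 : ℝ) ≤ h := by exact_mod_cast hh
    have hinj : Set.InjOn (fun v => (decide (P u v < Q u v), Jm u v))
        ((V.filter (fun v => Hm u v = h) : Finset ℕ) : Set ℕ) := by
      intro v hv w hw hvw
      simp only [Prod.mk.injEq, decide_eq_decide] at hvw
      have hv' := (Finset.mem_filter.mp hv)
      have hw' := (Finset.mem_filter.mp hw)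
      have h1 := hv'.2
      have h2 := hw'.2
      have h3 := PQ_ne (hVu v hv'.1)
      have h4 := PQ_ne (hVu w hw'.1)
      obtain ⟨h5, h6⟩ := hvw
      unfold Hm at h1 h2
      unfold Jm at h6
      have : P u v = P u w ∧ Q u v = Q u w := by
        by_cases h7 : P u v < Q u v
        · have h8 := h5.mp h7
          omega
        · have h8 : ¬ P u w < Q u w := fun h9 => h7 (h5.mpr h9)
          omega
      exact PQ_inj hu this.1 this.2
    have t1 : (0 : ℝ) ≤ (if h < E0 then (2 : ℝ) else 0) := by split_ifs <;> norm_num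
    have t2 : (0 : ℝ) ≤ (if (h : ℝ) < X then 320 * α else 0) := by split_ifs <;> positivity
    have t3 : (0 : ℝ) ≤ (if X ≤ (h : ℝ) then X * ((h : ℝ) ^ 2)⁻¹ else 0) := by
      split_ifs <;> positivity
    by_cases hE : h < E0
    · have hc : (V.filter (fun v => Hm u v = h)).card ≤
          ((Finset.univ : Finset Bool) ×ˢ Finset.range h).card := by
        apply Finset.card_le_card_of_injOn _ _ hinj
        intro v hv
        have hv' := (Finset.mem_filter.mp hv)
        have := (hJ v hv'.1).2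
        rw [hv'.2] at this
        simp only [Finset.coe_product, Finset.coe_univ, Finset.coe_range, Set.mem_prod,
          Set.mem_univ, true_and, Set.mem_Iio]
        exact this
      rw [Finset.card_product, Finset.card_univ, Fintype.card_bool, Finset.card_range] at hc
      have hc' : ((V.filter (fun v => Hm u v = h)).card : ℝ) ≤ 2 * h := by exact_mod_cast hc
      have : ((V.filter (fun v => Hm u v = h)).card : ℝ) / (h : ℝ) ^ 2 ≤ 2 := by
        rw [div_le_iff₀ (by positivity)]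
        nlinarith
      rw [if_pos hE]
      linarith
    · push Not at hE
      by_cases hXh : (h : ℝ) < X
      · -- case A
        set J1 : Finset ℕ := (Finset.Ico 1 h).filter (fun j : ℕ => ∃ k : ℤ,
          |(j : ℝ) * y1 - k| < 2 * α * h) with hJ1
        set J2 : Finset ℕ := (Finset.Ico 1 h).filter (fun j : ℕ => ∃ k : ℤ,
          |(j : ℝ) * y2 - k| < 2 * α * h) with hJ2
        set K1 : Finset ℕ := if 1 / (4 * (T1 h : ℝ)) ≤ 2 * α * h then J1 else ∅ with hK1
        set K2 : Finset ℕ := if 1 / (4 * (T2 h : ℝ)) ≤ 2 * α * h then J2 else ∅ with hK2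
        have hK1c : (K1.card : ℝ) ≤ 40 * h * (2 * α * h) := by
          rw [hK1]
          split_ifs with hif
          · obtain ⟨a1, a2, a3, a4⟩ := hA1 h hh
            exact count_le y1 _ h (T1 h) (s1 h) a1 a2 a3 a4 hif
          · simp only [Finset.card_empty, Nat.cast_zero]; positivity
        have hK2c : (K2.card : ℝ) ≤ 40 * h * (2 * α * h) := by
          rw [hK2]
          split_ifs with hif
          · obtain ⟨a1, a2, a3, a4⟩ := hA2 h hh
            exact count_le y2 _ h (T2 h) (s2 h) a1 a2 a3 a4 hif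
          · simp only [Finset.card_empty, Nat.cast_zero]; positivity
        have hc : (V.filter (fun v => Hm u v = h)).card ≤
            ((Finset.univ : Finset Bool) ×ˢ (K1 ∪ K2)).card := by
          apply Finset.card_le_card_of_injOn _ _ hinj
          intro v hv
          have hv' := (Finset.mem_filter.mp hv)
          have hb := hbad v hv'.1 (by rw [hv'.2]; exact hE)
          have hj := hJ v hv'.1
          rw [hv'.2] at hb hj
          simp only [Finset.coe_product, Finset.coe_univ, Set.mem_prod, Set.mem_univ, true_and,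
            Finset.mem_coe, Finset.mem_union]
          rcases hb with ⟨b1, b2⟩ | ⟨b1, b2⟩
          · left
            rw [hK1, if_pos b1, hJ1, Finset.mem_filter, Finset.mem_Ico]
            exact ⟨hj, b2⟩
          · right
            rw [hK2, if_pos b1, hJ2, Finset.mem_filter, Finset.mem_Ico]
            exact ⟨hj, b2⟩
        rw [Finset.card_product, Finset.card_univ, Fintype.card_bool] at hc
        have hu2 : ((K1 ∪ K2).card : ℝ) ≤ K1.card + K2.card := by
          exact_mod_cast Finset.card_union_le K1 K2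
        have hc' : ((V.filter (fun v => Hm u v = h)).card : ℝ) ≤ 2 * (K1 ∪ K2).card := by
          exact_mod_cast hc
        have : ((V.filter (fun v => Hm u v = h)).card : ℝ) / (h : ℝ) ^ 2 ≤ 320 * α := by
          rw [div_le_iff₀ (by positivity)]
          nlinarith
        rw [if_pos hXh]
        linarith
      · push Not at hXh
        have hc : (V.filter (fun v => Hm u v = h)).card ≤ (Finset.Ico 1 ⌈X⌉₊).card := by
          apply Finset.card_le_card_of_injOn (fun v => Q u v)
          · intro v hv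
            have hv' := (Finset.mem_filter.mp hv)
            have h1 := hq v hv'.1
            have h2 : (Q u v : ℝ) < X := by
              rw [hX, lt_div_iff₀ (by positivity)]; linarith
            simp only [Finset.coe_Ico, Set.mem_Ico]
            exact ⟨Q_pos (hV0 v hv'.1), Nat.lt_ceil.mpr h2⟩
          · intro v hv w hw hvw
            have hv' := (Finset.mem_filter.mp hv)
            have hw' := (Finset.mem_filter.mp hw)
            have key : ∀ v ∈ V, Hm u v = h → P u v = h := by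
              intro v hv hvh
              have h1 := hq v hv
              have h2 : (Q u v : ℝ) < h := by
                have : (Q u v : ℝ) < X := by
                  rw [hX, lt_div_iff₀ (by positivity)]; linarith
                linarith
              have h3 : Q u v < h := by exact_mod_cast h2
              unfold Hm at hvh
              omega
            exact PQ_inj hu (by rw [key v hv'.1 hv'.2, key w hw'.1 hw'.2]) hvw
        rw [Nat.card_Ico] at hc
        have hc' : ((V.filter (fun v => Hm u v = h)).card : ℝ) ≤ X := by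
          have h1 : ((V.filter (fun v => Hm u v = h)).card : ℝ) ≤ ((⌈X⌉₊ - 1 : ℕ) : ℝ) := by
            exact_mod_cast hc
          have h2 : (⌈X⌉₊ : ℝ) < X + 1 := Nat.ceil_lt_add_one (by linarith)
          have h3 : 1 ≤ ⌈X⌉₊ := Nat.one_le_ceil_iff.mpr (by linarith)
          rw [Nat.cast_sub h3] at h1
          push_cast at h1
          linarith
        have : ((V.filter (fun v => Hm u v = h)).card : ℝ) / (h : ℝ) ^ 2 ≤ X * ((h : ℝ) ^ 2)⁻¹ := by
          rw [div_eq_mul_inv]
          gcongr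
        rw [if_pos hXh]
        linarith
  -- summation
  set N : ℕ := V.sup (fun v => Hm u v) + 1 with hN
  have hmaps : ∀ v ∈ V, Hm u v ∈ Finset.Ico 1 N := by
    intro v hv
    rw [Finset.mem_Ico]
    exact ⟨hHpos v hv, Nat.lt_succ_of_le (Finset.le_sup (f := fun v => Hm u v) hv)⟩
  have hsum1 : ∑ h ∈ Finset.Ico 1 N, (if h < E0 then (2 : ℝ) else 0) ≤ 2 * E0 := by
    rw [← Finset.sum_filter, Finset.sum_const, nsmul_eq_mul]
    have : ((Finset.Ico 1 N).filter (fun h => h < E0)).card ≤ (Finset.range E0).card := by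
      apply Finset.card_le_card
      intro h hh
      exact Finset.mem_range.mpr (Finset.mem_filter.mp hh).2
    rw [Finset.card_range] at this
    have h' : (((Finset.Ico 1 N).filter (fun h => h < E0)).card : ℝ) ≤ E0 := by exact_mod_cast this
    linarith
  have hsum2 : ∑ h ∈ Finset.Ico 1 N, (if (h : ℝ) < X then 320 * α else 0) ≤ 160 := by
    rw [← Finset.sum_filter, Finset.sum_const, nsmul_eq_mul]
    have : ((Finset.Ico 1 N).filter (fun h : ℕ => (h : ℝ) < X)).card
        ≤ (Finset.Ico 1 ⌈X⌉₊).card := by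
      apply Finset.card_le_card
      intro h hh
      have := Finset.mem_filter.mp hh
      rw [Finset.mem_Ico] at this ⊢
      exact ⟨this.1.1, Nat.lt_ceil.mpr this.2⟩
    rw [Nat.card_Ico] at this
    have h1 : (((Finset.Ico 1 N).filter (fun h : ℕ => (h : ℝ) < X)).card : ℝ)
        ≤ ((⌈X⌉₊ - 1 : ℕ) : ℝ) := by exact_mod_cast this
    have h2 : (⌈X⌉₊ : ℝ) < X + 1 := Nat.ceil_lt_add_one (by linarith)
    have h3 : 1 ≤ ⌈X⌉₊ := Nat.one_le_ceil_iff.mpr (by linarith)
    rw [Nat.cast_sub h3] at h1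
    push_cast at h1
    have h4 : (((Finset.Ico 1 N).filter (fun h : ℕ => (h : ℝ) < X)).card : ℝ) ≤ X := by linarith
    calc (((Finset.Ico 1 N).filter (fun h : ℕ => (h : ℝ) < X)).card : ℝ) * (320 * α)
        ≤ X * (320 * α) := by gcongr
      _ = 160 * (2 * α * X) := by ring
      _ = 160 := by rw [hXα]; ring
  have hsum3 : ∑ h ∈ Finset.Ico 1 N, (if X ≤ (h : ℝ) then X * ((h : ℝ) ^ 2)⁻¹ else 0) ≤ 2 := by
    rw [← Finset.sum_filter, ← Finset.mul_sum]
    have h3 : 1 ≤ ⌈X⌉₊ := Nat.one_le_ceil_iff.mpr (by linarith)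
    have h1 : ∑ h ∈ (Finset.Ico 1 N).filter (fun h : ℕ => X ≤ (h : ℝ)), ((h : ℝ) ^ 2)⁻¹
        ≤ ∑ h ∈ Finset.Ioo (⌈X⌉₊ - 1) N, ((h : ℝ) ^ 2)⁻¹ := by
      apply Finset.sum_le_sum_of_subset_of_nonneg
      · intro h hh
        have := Finset.mem_filter.mp hh
        have h4 : ⌈X⌉₊ ≤ h := Nat.ceil_le.mpr this.2
        rw [Finset.mem_Ico] at this
        rw [Finset.mem_Ioo]
        omega
      · intro i _ _; positivity
    have h2 := sum_Ioo_inv_sq_le (α := ℝ) (⌈X⌉₊ - 1) N
    have h5 : ((⌈X⌉₊ - 1 : ℕ) : ℝ) + 1 = ⌈X⌉₊ := by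
      rw [Nat.cast_sub h3]; push_cast; ring
    rw [h5] at h2
    have h6 : (2 : ℝ) / ⌈X⌉₊ ≤ 2 / X := by
      apply div_le_div_of_nonneg_left (by norm_num) (by linarith) (Nat.le_ceil X)
    calc X * ∑ h ∈ (Finset.Ico 1 N).filter (fun h : ℕ => X ≤ (h : ℝ)), ((h : ℝ) ^ 2)⁻¹
        ≤ X * (2 / X) := by
          apply mul_le_mul_of_nonneg_left _ (by linarith)
          linarith
      _ = 2 := by field_simp
  calc ∑ v ∈ V, 1 / (Hm u v : ℝ) ^ 2
      = ∑ h ∈ Finset.Ico 1 N, ∑ v ∈ V.filter (fun v => Hm u v = h), 1 / (Hm u v : ℝ) ^ 2 :=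
        (Finset.sum_fiberwise_of_maps_to hmaps _).symm
    _ = ∑ h ∈ Finset.Ico 1 N, ((V.filter (fun v => Hm u v = h)).card : ℝ) / (h : ℝ) ^ 2 := by
        apply Finset.sum_congr rfl
        intro h _
        rw [Finset.sum_congr rfl (g := fun _ => 1 / (h : ℝ) ^ 2)]
        · rw [Finset.sum_const, nsmul_eq_mul, mul_one_div]
        · intro v hv
          rw [(Finset.mem_filter.mp hv).2]
    _ ≤ ∑ h ∈ Finset.Ico 1 N, ((if h < E0 then (2 : ℝ) else 0)
          + (if (h : ℝ) < X then 320 * α else 0)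
          + (if X ≤ (h : ℝ) then X * ((h : ℝ) ^ 2)⁻¹ else 0)) := by
        apply Finset.sum_le_sum
        intro h hh
        exact hcard h (Finset.mem_Ico.mp hh).1
    _ ≤ 2 * E0 + 162 := by
        rw [Finset.sum_add_distrib, Finset.sum_add_distrib]
        linarith

end Pool.Agent.Helper19
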