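import Mathlib
import Pool.Agent.Helper19.Khin4
import Pool.Agent.Helper19.Khin5

set_option autoImplicit false

open MeasureTheory

namespace Pool.Agent.Helper19

lemma arith_key (y : ℝ) (h T : ℕ) (s : ℤ) (hT : 0 < T) (hh : 0 < h)
    (happ : |(T : ℝ) * y - s| ≤ 1 / (4 * h)) (p q : ℕ) (hp : 0 < p) (hq : 0 < q)
    (hco : Nat.Coprime p q) (hph : p ≤ h) (hqh : q ≤ h) (Δ : ℝ) (hΔ : Δ ≤ 1 / (4 * T))
    (a b : ℤ) (hab : |(q : ℝ) * (a + y) - p * (b + y)| < Δ) :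
    (p : ℤ) ∣ T * a + s ∧ (q : ℤ) ∣ T * b + s := by
  have hT' : (0 : ℝ) < T := by exact_mod_cast hT
  have hh' : (0 : ℝ) < h := by exact_mod_cast hh
  have hp' : (0 : ℝ) < p := by exact_mod_cast hp
  have hq' : (0 : ℝ) < q := by exact_mod_cast hq
  have hph' : (p : ℝ) ≤ h := by exact_mod_cast hph
  have hqh' : (q : ℝ) ≤ h := by exact_mod_cast hqh
  have key : (q : ℤ) * (T * a + s) - p * (T * b + s) = 0 := by
    have e : (((q : ℤ) * (T * a + s) - p * (T * b + s) : ℤ) : ℝ)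
        = T * ((q : ℝ) * (a + y) - p * (b + y)) - ((q : ℝ) - p) * (T * y - s) := by
      push_cast; ring
    have hlt : |(((q : ℤ) * (T * a + s) - p * (T * b + s) : ℤ) : ℝ)| < 1 := by
      rw [e]
      have h1 : |(q : ℝ) - p| ≤ h := by
        rw [abs_le]; constructor <;> linarith
      calc |(T : ℝ) * ((q : ℝ) * (a + y) - p * (b + y)) - ((q : ℝ) - p) * (T * y - s)|
          ≤ |(T : ℝ) * ((q : ℝ) * (a + y) - p * (b + y))| + |((q : ℝ) - p) * (T * y - s)| :=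
            abs_sub _ _
        _ = T * |(q : ℝ) * (a + y) - p * (b + y)| + |(q : ℝ) - p| * |(T : ℝ) * y - s| := by
            rw [abs_mul, abs_mul, abs_of_pos hT']
        _ ≤ T * Δ + h * (1 / (4 * h)) := by
            gcongr
        _ ≤ T * (1 / (4 * T)) + h * (1 / (4 * h)) := by gcongr
        _ = 1 / 2 := by field_simp; norm_num
        _ < 1 := by norm_num
    have hlt' : |(q : ℤ) * (T * a + s) - p * (T * b + s)| < 1 := by exact_mod_cast hlt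
    exact Int.abs_lt_one_iff.mp hlt'
  have hco' : IsCoprime (p : ℤ) (q : ℤ) := Nat.isCoprime_iff_coprime.mpr hco
  have e1 : (q : ℤ) * (T * a + s) = p * (T * b + s) := by linarith
  exact ⟨hco'.dvd_of_dvd_mul_left ⟨_, e1⟩, hco'.symm.dvd_of_dvd_mul_left ⟨_, e1.symm⟩⟩

/-- The selected part of the approximation set for the modulus `u`. -/
def Bset (y : ℝ × ℝ) (ψ : ℕ → ℝ) (T1 T2 : ℕ → ℕ) (s1 s2 : ℕ → ℤ) (E0 u : ℕ) : Set (ℝ × ℝ) :=
  {x | (x.1 ∈ Set.Icc (0 : ℝ) 1 ∧ x.2 ∈ Set.Icc (0 : ℝ) 1) ∧ ∃ a b : ℤ,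
    (∀ e : ℕ, 0 < e → E0 ≤ e → e ∣ u →
      ¬ ((e : ℤ) ∣ T1 e * a + s1 e ∧ (e : ℤ) ∣ T2 e * b + s2 e)) ∧
    |(u : ℝ) * x.1 - a - y.1| < ψ u ∧ |(u : ℝ) * x.2 - b - y.2| < ψ u}

/-- A pair is bad. -/
def Bad (y : ℝ × ℝ) (ψ : ℕ → ℝ) (T1 T2 : ℕ → ℕ) (E0 u v : ℕ) : Prop :=
  ψ u * Q u v < 1 / 2 ∧ (E0 ≤ Hm u v →
      (1 / (4 * (T1 (Hm u v) : ℝ)) ≤ 2 * ψ u * Hm u v ∧
          ∃ k : ℤ, |(Jm u v : ℝ) * y.1 - k| < 2 * ψ u * Hm u v) ∨
      (1 / (4 * (T2 (Hm u v) : ℝ)) ≤ 2 * ψ u * Hm u v ∧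
          ∃ k : ℤ, |(Jm u v : ℝ) * y.2 - k| < 2 * ψ u * Hm u v))

/-- From a difference estimate, a multiple of `y` is close to an integer. -/
lemma close_of_diff (y : ℝ) (p q : ℕ) (Δ : ℝ) (a b : ℤ)
    (hab : |(q : ℝ) * (a + y) - p * (b + y)| < Δ) :
    ∃ k : ℤ, |((max p q - min p q : ℕ) : ℝ) * y - k| < Δ := by
  rcases le_total p q with h | h
  · refine ⟨p * b - q * a, ?_⟩
    rw [max_eq_right h, min_eq_left h, Nat.cast_sub h]
    have e : ((q : ℝ) - p) * y - ((p * b - q * a : ℤ) : ℝ) = (q : ℝ) * (a + y) - p * (b + y) := by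
      push_cast; ring
    rw [e]; exact hab
  · refine ⟨q * a - p * b, ?_⟩
    rw [max_eq_left h, min_eq_right h, Nat.cast_sub h]
    have e : ((p : ℝ) - q) * y - ((q * a - p * b : ℤ) : ℝ)
        = -((q : ℝ) * (a + y) - p * (b + y)) := by
      push_cast; ring
    rw [e, abs_neg]; exact hab

lemma diff_bound (u v : ℕ) (hu : 0 < u) (hv : 0 < v) (x y α β : ℝ) (a b : ℤ)
    (ha : |(u : ℝ) * x - a - y| < α) (hb : |(v : ℝ) * x - b - y| < β) :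
    |(Q u v : ℝ) * (a + y) - P u v * (b + y)| < α * Q u v + β * P u v := by
  have hp : (0 : ℝ) < P u v := by exact_mod_cast P_pos hu
  have hq : (0 : ℝ) < Q u v := by exact_mod_cast Q_pos hv
  have hc : (v : ℝ) * P u v = u * Q u v := by exact_mod_cast PQ_cross u v
  have e : (Q u v : ℝ) * (a + y) - P u v * (b + y)
      = P u v * ((v : ℝ) * x - b - y) - Q u v * ((u : ℝ) * x - a - y) := by
    linear_combination (-x) * hc
  rw [e]
  calc |(P u v : ℝ) * ((v : ℝ) * x - b - y) - Q u v * ((u : ℝ) * x - a - y)|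
      ≤ |(P u v : ℝ) * ((v : ℝ) * x - b - y)| + |(Q u v : ℝ) * ((u : ℝ) * x - a - y)| := abs_sub _ _
    _ = P u v * |(v : ℝ) * x - b - y| + Q u v * |(u : ℝ) * x - a - y| := by
        rw [abs_mul, abs_mul, abs_of_pos hp, abs_of_pos hq]
    _ < P u v * β + Q u v * α := by
        have := mul_lt_mul_of_pos_left hb hp
        have := mul_lt_mul_of_pos_left ha hq
        linarith
    _ = α * Q u v + β * P u v := by ring

/-- The trivial 2-dimensional overlap bound. -/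
lemma measure_pair_le (y : ℝ × ℝ) (ψ : ℕ → ℝ) (T1 T2 : ℕ → ℕ) (s1 s2 : ℕ → ℤ) (E0 u v : ℕ)
    (hu : 0 < u) (hv : 0 < v) (hu0 : 0 ≤ ψ u) (hu1 : ψ u ≤ 1 / 2) (hv0 : 0 ≤ ψ v)
    (hv1 : ψ v ≤ 1 / 2) :
    volume (Bset y ψ T1 T2 s1 s2 E0 u ∩ Bset y ψ T1 T2 s1 s2 E0 v) ≤
      ENNReal.ofReal (((2 * (ψ u * Q u v + ψ v * P u v) + 1) *
        min (6 * ψ u / P u v) (6 * ψ v / Q u v)) ^ 2) := by
  set D : ℝ → Set ℝ := fun z => {x : ℝ | x ∈ Set.Icc (0 : ℝ) 1 ∧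
    (∃ a : ℤ, |((Nat.gcd u v * P u v : ℕ) : ℝ) * x - a - z| < ψ u) ∧
        ∃ b : ℤ, |((Nat.gcd u v * Q u v : ℕ) : ℝ) * x - b - z| < ψ v} with hD
  have hsub : Bset y ψ T1 T2 s1 s2 E0 u ∩ Bset y ψ T1 T2 s1 s2 E0 v ⊆ D y.1 ×ˢ D y.2 := by
    rintro x ⟨⟨⟨hx1, hx2⟩, a, b, _, ha, hb⟩, ⟨_, c, d, _, hc, hd⟩⟩
    simp only [hD, P_mul, Q_mul, Set.mem_prod, Set.mem_ofPred_eq]
    exact ⟨⟨hx1, ⟨a, ha⟩, c, hc⟩, hx2, ⟨b, hb⟩, d, hd⟩
  have hDz : ∀ z, volume (D z) ≤ ENNReal.ofReal ((2 * (ψ u * Q u v + ψ v * P u v) + 1) *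
        min (6 * ψ u / P u v) (6 * ψ v / Q u v)) := fun z =>
    measure_overlap z (ψ u) (ψ v) (Nat.gcd u v) (P u v) (Q u v) (Nat.gcd_pos_of_pos_left _ hu)
      (P_pos hu) (Q_pos hv) (PQ_coprime hu) hu0 hu1 hv0 hv1
  have hnn : 0 ≤ (2 * (ψ u * Q u v + ψ v * P u v) + 1) *
        min (6 * ψ u / P u v) (6 * ψ v / (Q u v : ℝ)) := by positivity
  calc volume (Bset y ψ T1 T2 s1 s2 E0 u ∩ Bset y ψ T1 T2 s1 s2 E0 v)
      ≤ volume (D y.1 ×ˢ D y.2) := measure_mono hsub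
    _ = volume (D y.1) * volume (D y.2) := by
        rw [Measure.volume_eq_prod, Measure.prod_prod]
    _ ≤ ENNReal.ofReal _ * ENNReal.ofReal _ := mul_le_mul' (hDz _) (hDz _)
    _ = _ := by rw [← ENNReal.ofReal_mul hnn, sq]

lemma pair_bound (y : ℝ × ℝ) (ψ : ℕ → ℝ) (T1 T2 : ℕ → ℕ) (s1 s2 : ℕ → ℤ)
    (hA1 : Approx y.1 T1 s1) (hA2 : Approx y.2 T2 s2) (E0 u v : ℕ)
    (hu : 0 < u) (hv : 0 < v) (hu0 : 0 ≤ ψ u) (hu1 : ψ u ≤ 1 / 2)
    (hv0 : 0 ≤ ψ v) (hvu : ψ v ≤ ψ u) (hbad : ¬ Bad y ψ T1 T2 E0 u v) :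
    (volume (Bset y ψ T1 T2 s1 s2 E0 u ∩ Bset y ψ T1 T2 s1 s2 E0 v)).toReal ≤
      2304 * ψ u ^ 2 * ψ v ^ 2 := by
  have hp := P_pos (v := v) hu
  have hq := Q_pos (u := u) hv
  have hp' : (0 : ℝ) < P u v := by exact_mod_cast hp
  have hq' : (0 : ℝ) < Q u v := by exact_mod_cast hq
  have hv1 : ψ v ≤ 1 / 2 := le_trans hvu hu1
  set Δ : ℝ := ψ u * Q u v + ψ v * P u v with hΔ
  by_cases hcase : 1 / 2 ≤ Δ
  · apply ENNReal.toReal_le_of_le_ofReal (by positivity)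
    refine le_trans (measure_pair_le y ψ T1 T2 s1 s2 E0 u v hu hv hu0 hu1 hv0 hv1) ?_
    apply ENNReal.ofReal_le_ofReal
    rw [← hΔ]
    have hM0 : 0 ≤ min (6 * ψ u / P u v) (6 * ψ v / (Q u v : ℝ)) := by positivity
    have hM1 : min (6 * ψ u / P u v) (6 * ψ v / (Q u v : ℝ)) ≤ 6 * ψ u / P u v := min_le_left _ _
    have hM2 : min (6 * ψ u / P u v) (6 * ψ v / (Q u v : ℝ)) ≤ 6 * ψ v / Q u v := min_le_right _ _
    set M : ℝ := min (6 * ψ u / P u v) (6 * ψ v / (Q u v : ℝ)) with hM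
    have h1 : M * (ψ u * Q u v) ≤ 6 * ψ u * ψ v := by
      calc M * (ψ u * Q u v) ≤ (6 * ψ v / Q u v) * (ψ u * Q u v) := by gcongr
        _ = 6 * ψ u * ψ v := by field_simp
    have h2 : M * (ψ v * P u v) ≤ 6 * ψ u * ψ v := by
      calc M * (ψ v * P u v) ≤ (6 * ψ u / P u v) * (ψ v * P u v) := by gcongr
        _ = 6 * ψ u * ψ v := by field_simp
    have h3 : (2 * Δ + 1) * M ≤ 48 * (ψ u * ψ v) := by
      have h4 : M * Δ ≤ 12 * (ψ u * ψ v) := by rw [hΔ]; linarith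
      nlinarith
    calc ((2 * Δ + 1) * M) ^ 2 ≤ (48 * (ψ u * ψ v)) ^ 2 := by
          apply pow_le_pow_left₀ (by positivity) h3
      _ = 2304 * ψ u ^ 2 * ψ v ^ 2 := by ring
  · push Not at hcase
    have hempty : Bset y ψ T1 T2 s1 s2 E0 u ∩ Bset y ψ T1 T2 s1 s2 E0 v = ∅ := by
      rw [Set.eq_empty_iff_forall_notMem]
      rintro x ⟨⟨⟨hx1, hx2⟩, a, b, hab, ha, hb⟩, ⟨_, c, d, hcd, hc, hd⟩⟩
      apply hbad
      have hpH : P u v ≤ Hm u v := le_max_left _ _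
      have hqH : Q u v ≤ Hm u v := le_max_right _ _
      have hpH' : (P u v : ℝ) ≤ Hm u v := by exact_mod_cast hpH
      have hqH' : (Q u v : ℝ) ≤ Hm u v := by exact_mod_cast hqH
      have hH0 : 0 < Hm u v := lt_of_lt_of_le hp hpH
      have d1 := diff_bound u v hu hv x.1 y.1 (ψ u) (ψ v) a c ha hc
      have d2 := diff_bound u v hu hv x.2 y.2 (ψ u) (ψ v) b d hb hd
      rw [← hΔ] at d1 d2
      have hΔH : Δ ≤ 2 * ψ u * Hm u v := by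
        rw [hΔ]
        nlinarith [mul_le_mul_of_nonneg_left hqH' hu0, mul_le_mul hvu hpH' hp'.le hu0]
      refine ⟨?_, ?_⟩
      · have : 0 ≤ ψ v * P u v := by positivity
        linarith
      · intro hE
        obtain ⟨k1, hk1⟩ := close_of_diff y.1 _ _ _ _ _ d1
        obtain ⟨k2, hk2⟩ := close_of_diff y.2 _ _ _ _ _ d2
        by_cases c1 : 1 / (4 * (T1 (Hm u v) : ℝ)) ≤ 2 * ψ u * Hm u v
        · left
          exact ⟨c1, k1, lt_of_lt_of_le hk1 hΔH⟩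
        · by_cases c2 : 1 / (4 * (T2 (Hm u v) : ℝ)) ≤ 2 * ψ u * Hm u v
          · right
            exact ⟨c2, k2, lt_of_lt_of_le hk2 hΔH⟩
          · exfalso
            push Not at c1 c2
            obtain ⟨t1, t2, t3, t4⟩ := hA1 (Hm u v) hH0
            obtain ⟨r1, r2, r3, r4⟩ := hA2 (Hm u v) hH0
            have e1 := arith_key y.1 (Hm u v) _ _ t1 hH0 t4 (P u v) (Q u v) hp hq
              (PQ_coprime hu) hpH hqH Δ (by linarith) a c d1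
            have e2 := arith_key y.2 (Hm u v) _ _ r1 hH0 r4 (P u v) (Q u v) hp hq
              (PQ_coprime hu) hpH hqH Δ (by linarith) b d d2
            rcases max_choice (P u v) (Q u v) with hm | hm
            · have hm' : Hm u v = P u v := hm
              have hdvd : Hm u v ∣ u := by rw [hm']; exact ⟨Nat.gcd u v, by rw [mul_comm]; exact (P_mul u v).symm⟩
              apply hab (Hm u v) hH0 hE hdvd
              rw [← hm'] at e1 e2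
              exact ⟨e1.1, e2.1⟩
            · have hm' : Hm u v = Q u v := hm
              have hdvd : Hm u v ∣ v := by rw [hm']; exact ⟨Nat.gcd u v, by rw [mul_comm]; exact (Q_mul u v).symm⟩
              apply hcd (Hm u v) hH0 hE hdvd
              rw [← hm'] at e1 e2
              exact ⟨e1.2, e2.2⟩
    rw [hempty]
    simp only [measure_empty, ENNReal.toReal_zero]
    positivity

lemma pair_bound_bad (y : ℝ × ℝ) (ψ : ℕ → ℝ) (T1 T2 : ℕ → ℕ) (s1 s2 : ℕ → ℤ) (E0 u v : ℕ)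
    (hu : 0 < u) (hv : 0 < v) (hu0 : 0 ≤ ψ u) (hu1 : ψ u ≤ 1 / 2)
    (hv0 : 0 ≤ ψ v) (hvu : ψ v ≤ ψ u) :
    (volume (Bset y ψ T1 T2 s1 s2 E0 u ∩ Bset y ψ T1 T2 s1 s2 E0 v)).toReal ≤
      2304 * ψ u ^ 2 * ψ v ^ 2 + 144 * ψ u ^ 2 * (1 / (Hm u v : ℝ) ^ 2) := by
  have hp := P_pos (v := v) hu
  have hq := Q_pos (u := u) hv
  have hp' : (0 : ℝ) < P u v := by exact_mod_cast hp
  have hq' : (0 : ℝ) < Q u v := by exact_mod_cast hq
  have hv1 : ψ v ≤ 1 / 2 := le_trans hvu hu1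
  have hpH : P u v ≤ Hm u v := le_max_left _ _
  have hqH : Q u v ≤ Hm u v := le_max_right _ _
  have hpH' : (P u v : ℝ) ≤ Hm u v := by exact_mod_cast hpH
  have hH0 : (0 : ℝ) < Hm u v := lt_of_lt_of_le hp' hpH'
  set Δ : ℝ := ψ u * Q u v + ψ v * P u v with hΔ
  apply ENNReal.toReal_le_of_le_ofReal (by positivity)
  refine le_trans (measure_pair_le y ψ T1 T2 s1 s2 E0 u v hu hv hu0 hu1 hv0 hv1) ?_
  apply ENNReal.ofReal_le_ofReal
  rw [← hΔ]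
  have hM0 : 0 ≤ min (6 * ψ u / P u v) (6 * ψ v / (Q u v : ℝ)) := by positivity
  have hM1 : min (6 * ψ u / P u v) (6 * ψ v / (Q u v : ℝ)) ≤ 6 * ψ u / P u v := min_le_left _ _
  have hM2 : min (6 * ψ u / P u v) (6 * ψ v / (Q u v : ℝ)) ≤ 6 * ψ v / Q u v := min_le_right _ _
  set M : ℝ := min (6 * ψ u / P u v) (6 * ψ v / (Q u v : ℝ)) with hM
  have hΔ0 : 0 ≤ Δ := by rw [hΔ]; positivity
  by_cases hcase : 1 / 2 ≤ Δ
  · have h1 : M * (ψ u * Q u v) ≤ 6 * ψ u * ψ v := by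
      calc M * (ψ u * Q u v) ≤ (6 * ψ v / Q u v) * (ψ u * Q u v) := by gcongr
        _ = 6 * ψ u * ψ v := by field_simp
    have h2 : M * (ψ v * P u v) ≤ 6 * ψ u * ψ v := by
      calc M * (ψ v * P u v) ≤ (6 * ψ u / P u v) * (ψ v * P u v) := by gcongr
        _ = 6 * ψ u * ψ v := by field_simp
    have h3 : (2 * Δ + 1) * M ≤ 48 * (ψ u * ψ v) := by
      have h4 : M * Δ ≤ 12 * (ψ u * ψ v) := by rw [hΔ]; linarith
      nlinarith
    have h5 : 0 ≤ 144 * ψ u ^ 2 * (1 / (Hm u v : ℝ) ^ 2) := by positivity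
    calc ((2 * Δ + 1) * M) ^ 2 ≤ (48 * (ψ u * ψ v)) ^ 2 := by
          apply pow_le_pow_left₀ (by positivity) h3
      _ = 2304 * ψ u ^ 2 * ψ v ^ 2 := by ring
      _ ≤ _ := by linarith
  · push Not at hcase
    have h1 : M ≤ 6 * ψ u / Hm u v := by
      rcases max_choice (P u v) (Q u v) with hm | hm
      · have hm' : Hm u v = P u v := hm
        rw [hm']; exact hM1
      · have hm' : Hm u v = Q u v := hm
        rw [hm']
        refine le_trans hM2 ?_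
        gcongr
    have h2 : (2 * Δ + 1) * M ≤ 12 * ψ u / Hm u v := by
      calc (2 * Δ + 1) * M ≤ 2 * M := by
            apply mul_le_mul_of_nonneg_right _ hM0
            linarith
        _ ≤ 2 * (6 * ψ u / Hm u v) := by linarith
        _ = 12 * ψ u / Hm u v := by ring
    have h5 : 0 ≤ 2304 * ψ u ^ 2 * ψ v ^ 2 := by positivity
    calc ((2 * Δ + 1) * M) ^ 2 ≤ (12 * ψ u / Hm u v) ^ 2 := by
          apply pow_le_pow_left₀ (by positivity) h2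
      _ = 144 * ψ u ^ 2 * (1 / (Hm u v : ℝ) ^ 2) := by
          rw [div_pow]; ring
      _ ≤ _ := by linarith

open Classical in
/-- Sum of the overlaps with a fixed `u`. -/
lemma sum_overlap (y : ℝ × ℝ) (ψ : ℕ → ℝ) (T1 T2 : ℕ → ℕ) (s1 s2 : ℕ → ℤ)
    (hA1 : Approx y.1 T1 s1) (hA2 : Approx y.2 T2 s2) (E0 u : ℕ)
    (F : Finset ℕ) (hF : ∀ v ∈ F, 0 < v) (hψ0 : ∀ v, 0 ≤ ψ v) (hψ1 : ∀ v, ψ v ≤ 1 / 2)
    (hu : 0 < u) (hv : ∀ v ∈ F, v ≠ u) (hvu : ∀ v ∈ F, ψ v ≤ ψ u) :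
    ∑ v ∈ F, (volume (Bset y ψ T1 T2 s1 s2 E0 u ∩ Bset y ψ T1 T2 s1 s2 E0 v)).toReal ≤
      2304 * ψ u ^ 2 * (∑ v ∈ F, ψ v ^ 2) + 144 * ψ u ^ 2 * (2 * E0 + 162) := by
  rcases eq_or_lt_of_le (hψ0 u) with h0 | h0
  · have : ∀ v ∈ F, (volume (Bset y ψ T1 T2 s1 s2 E0 u ∩ Bset y ψ T1 T2 s1 s2 E0 v)).toReal
        ≤ 0 := by
      intro v hvF
      have := pair_bound_bad y ψ T1 T2 s1 s2 E0 u v hu (hF v hvF) (hψ0 u) (hψ1 u) (hψ0 v)
        (hvu v hvF)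
      rw [← h0] at this
      simpa using this
    calc ∑ v ∈ F, (volume (Bset y ψ T1 T2 s1 s2 E0 u ∩ Bset y ψ T1 T2 s1 s2 E0 v)).toReal
        ≤ ∑ v ∈ F, (0 : ℝ) := Finset.sum_le_sum this
      _ = 0 := by simp
      _ ≤ _ := by positivity
  · set Fb := F.filter (fun v => Bad y ψ T1 T2 E0 u v) with hFb
    have hb := bad_sum y.1 y.2 T1 T2 s1 s2 hA1 hA2 E0 u hu (ψ u) h0 (hψ1 u) Fb
      (fun v hv' => hF v (Finset.mem_filter.mp hv').1)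
      (fun v hv' => hv v (Finset.mem_filter.mp hv').1)
      (fun v hv' => (Finset.mem_filter.mp hv').2.1)
      (fun v hv' => (Finset.mem_filter.mp hv').2.2)
    have hterm : ∀ v ∈ F, (volume (Bset y ψ T1 T2 s1 s2 E0 u ∩ Bset y ψ T1 T2 s1 s2 E0 v)).toReal
        ≤ 2304 * ψ u ^ 2 * ψ v ^ 2
          + (if Bad y ψ T1 T2 E0 u v then 144 * ψ u ^ 2 * (1 / (Hm u v : ℝ) ^ 2) else 0) := by
      intro v hvF
      split_ifs with hB
      · exact pair_bound_bad y ψ T1 T2 s1 s2 E0 u v hu (hF v hvF) (hψ0 u) (hψ1 u) (hψ0 v)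
          (hvu v hvF)
      · rw [add_zero]
        exact pair_bound y ψ T1 T2 s1 s2 hA1 hA2 E0 u v hu (hF v hvF) (hψ0 u) (hψ1 u) (hψ0 v)
          (hvu v hvF) hB
    calc ∑ v ∈ F, (volume (Bset y ψ T1 T2 s1 s2 E0 u ∩ Bset y ψ T1 T2 s1 s2 E0 v)).toReal
        ≤ ∑ v ∈ F, (2304 * ψ u ^ 2 * ψ v ^ 2
          + (if Bad y ψ T1 T2 E0 u v then 144 * ψ u ^ 2 * (1 / (Hm u v : ℝ) ^ 2) else 0)) :=
          Finset.sum_le_sum hterm
      _ = 2304 * ψ u ^ 2 * (∑ v ∈ F, ψ v ^ 2)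
          + 144 * ψ u ^ 2 * ∑ v ∈ Fb, (1 / (Hm u v : ℝ) ^ 2) := by
          rw [Finset.sum_add_distrib, ← Finset.sum_filter, Finset.mul_sum, Finset.mul_sum]
      _ ≤ _ := by
          gcongr

end Pool.Agent.Helper19
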