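import Mathlib
import Pool.Agent.Helper19.Khin6

set_option autoImplicit false

open MeasureTheory

namespace Pool.Agent.Helper19

lemma measure_self_le (y : ℝ × ℝ) (ψ : ℕ → ℝ) (T1 T2 : ℕ → ℕ) (s1 s2 : ℕ → ℤ) (E0 u : ℕ)
    (hu : 0 < u) (hu0 : 0 ≤ ψ u) (hu1 : ψ u ≤ 1 / 2) :
    (volume (Bset y ψ T1 T2 s1 s2 E0 u)).toReal ≤ 36 * ψ u ^ 2 := by
  apply ENNReal.toReal_le_of_le_ofReal (by positivity)
  set D : ℝ → Set ℝ := fun z => {x : ℝ | x ∈ Set.Icc (0 : ℝ) 1 ∧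
    ∃ a : ℤ, ((1 : ℕ) : ℤ) ∣ a - 0 ∧ |(u : ℝ) * x - a - z| < ψ u} with hD
  have hsub : Bset y ψ T1 T2 s1 s2 E0 u ⊆ D y.1 ×ˢ D y.2 := by
    rintro x ⟨⟨hx1, hx2⟩, a, b, _, ha, hb⟩
    simp only [hD, Set.mem_prod, Set.mem_ofPred_eq]
    exact ⟨⟨hx1, a, by simp, ha⟩, hx2, b, by simp, hb⟩
  have hDz : ∀ z, volume (D z) ≤ ENNReal.ofReal (6 * ψ u) := by
    intro z
    have := measure_res z (ψ u) u 1 0 one_pos hu hu0 hu1
    have e : 6 * ψ u / ((1 : ℕ) : ℝ) = 6 * ψ u := by norm_num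
    rw [e] at this
    exact this
  calc volume (Bset y ψ T1 T2 s1 s2 E0 u)
      ≤ volume (D y.1 ×ˢ D y.2) := measure_mono hsub
    _ = volume (D y.1) * volume (D y.2) := by
        rw [Measure.volume_eq_prod, Measure.prod_prod]
    _ ≤ ENNReal.ofReal (6 * ψ u) * ENNReal.ofReal (6 * ψ u) := mul_le_mul' (hDz _) (hDz _)
    _ = ENNReal.ofReal (36 * ψ u ^ 2) := by
        rw [← ENNReal.ofReal_mul (by positivity)]; congr 1; ring

open Classical in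
lemma second_moment (y : ℝ × ℝ) (ψ : ℕ → ℝ) (T1 T2 : ℕ → ℕ) (s1 s2 : ℕ → ℤ)
    (hA1 : Approx y.1 T1 s1) (hA2 : Approx y.2 T2 s2) (E0 : ℕ)
    (F : Finset ℕ) (hF : ∀ v ∈ F, 0 < v) (hψ0 : ∀ v, 0 ≤ ψ v) (hψ1 : ∀ v, ψ v ≤ 1 / 2) :
    ∑ u ∈ F, ∑ v ∈ F,
      (volume (Bset y ψ T1 T2 s1 s2 E0 u ∩ Bset y ψ T1 T2 s1 s2 E0 v)).toReal ≤
      4608 * (∑ v ∈ F, ψ v ^ 2) ^ 2 + (576 * E0 + 46692) * (∑ v ∈ F, ψ v ^ 2) := by
  set m : ℕ → ℕ → ℝ := fun u v =>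
    (volume (Bset y ψ T1 T2 s1 s2 E0 u ∩ Bset y ψ T1 T2 s1 s2 E0 v)).toReal with hm
  have hm0 : ∀ u v, 0 ≤ m u v := fun u v => ENNReal.toReal_nonneg
  have hsymm : ∀ u v, m u v = m v u := by
    intro u v; simp only [hm]; rw [Set.inter_comm]
  set S : ℝ := ∑ v ∈ F, ψ v ^ 2 with hS
  set g : ℕ → ℕ → ℝ := fun u v => if v ≠ u ∧ ψ v ≤ ψ u then m u v else 0 with hg
  have hg0 : ∀ u v, 0 ≤ g u v := by
    intro u v; simp only [hg]; split_ifs
    · exact hm0 u v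
    · exact le_refl _
  have h1 : ∀ u v, m u v ≤ (if v = u then m u u else 0) + g u v + g v u := by
    intro u v
    by_cases huv : v = u
    · subst huv
      have := hg0 v v
      rw [if_pos rfl]; linarith
    · rw [if_neg huv]
      rcases le_total (ψ v) (ψ u) with h | h
      · have e : g u v = m u v := by simp only [hg]; rw [if_pos ⟨huv, h⟩]
        have := hg0 v u
        linarith
      · have e : g v u = m u v := by
          simp only [hg]; rw [if_pos ⟨fun h' => huv h'.symm, h⟩, hsymm]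
        have := hg0 u v
        linarith
  have hgu : ∀ u ∈ F, ∑ v ∈ F, g u v ≤ 2304 * ψ u ^ 2 * S + 144 * ψ u ^ 2 * (2 * E0 + 162) := by
    intro u hu
    have e : ∑ v ∈ F, g u v = ∑ v ∈ F.filter (fun v => v ≠ u ∧ ψ v ≤ ψ u), m u v := by
      rw [Finset.sum_filter]
    rw [e]
    have := sum_overlap y ψ T1 T2 s1 s2 hA1 hA2 E0 u (F.filter (fun v => v ≠ u ∧ ψ v ≤ ψ u))
      (fun v hv => hF v (Finset.mem_filter.mp hv).1) hψ0 hψ1 (hF u hu)
      (fun v hv => (Finset.mem_filter.mp hv).2.1) (fun v hv => (Finset.mem_filter.mp hv).2.2)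
    refine le_trans this ?_
    have hle : ∑ v ∈ F.filter (fun v => v ≠ u ∧ ψ v ≤ ψ u), ψ v ^ 2 ≤ S :=
      Finset.sum_le_sum_of_subset_of_nonneg (Finset.filter_subset _ _) (fun i _ _ => by positivity)
    gcongr
  have hG : ∑ u ∈ F, ∑ v ∈ F, g u v ≤ 2304 * S ^ 2 + 144 * (2 * E0 + 162) * S := by
    calc ∑ u ∈ F, ∑ v ∈ F, g u v
        ≤ ∑ u ∈ F, (2304 * ψ u ^ 2 * S + 144 * ψ u ^ 2 * (2 * E0 + 162)) :=
          Finset.sum_le_sum hgu
      _ = ∑ u ∈ F, ψ u ^ 2 * (2304 * S + 144 * (2 * E0 + 162)) := by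
          apply Finset.sum_congr rfl; intro u _; ring
      _ = S * (2304 * S + 144 * (2 * E0 + 162)) := by rw [← Finset.sum_mul]
      _ = _ := by ring
  calc ∑ u ∈ F, ∑ v ∈ F, m u v
      ≤ ∑ u ∈ F, ∑ v ∈ F, ((if v = u then m u u else 0) + g u v + g v u) :=
        Finset.sum_le_sum (fun u _ => Finset.sum_le_sum (fun v _ => h1 u v))
    _ = ∑ u ∈ F, m u u + ∑ u ∈ F, ∑ v ∈ F, g u v + ∑ u ∈ F, ∑ v ∈ F, g v u := by
        simp only [Finset.sum_add_distrib]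
        congr 2
        apply Finset.sum_congr rfl
        intro u hu
        rw [Finset.sum_ite_eq' F u, if_pos hu]
    _ = ∑ u ∈ F, m u u + 2 * ∑ u ∈ F, ∑ v ∈ F, g u v := by
        rw [Finset.sum_comm (f := fun u v => g v u)]; ring
    _ ≤ 36 * S + 2 * (2304 * S ^ 2 + 144 * (2 * E0 + 162) * S) := by
        have : ∑ u ∈ F, m u u ≤ 36 * S := by
          rw [hS, Finset.mul_sum]
          apply Finset.sum_le_sum
          intro u hu
          simp only [hm, Set.inter_self]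
          exact measure_self_le y ψ T1 T2 s1 s2 E0 u (hF u hu) (hψ0 u) (hψ1 u)
        linarith
    _ = _ := by ring

end Pool.Agent.Helper19
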