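import Mathlib
import Pool.Agent.Helper19.Khin7

set_option autoImplicit false

open MeasureTheory

namespace Pool.Agent.Helper19

/-- One dimensional lower bound. -/
lemma measure_lower (y α : ℝ) (u n i : ℕ) (hn : 0 < n) (hnu : 4 * n ≤ u) (hα0 : 0 ≤ α)
    (hα : α ≤ 1 / 2) :
    ENNReal.ofReal (α / n) ≤
      volume {x : ℝ | x ∈ Set.Ioo ((i : ℝ) / n) (((i : ℝ) + 1) / n) ∧
        ∃ a : ℤ, |(u : ℝ) * x - a - y| < α} := by
  have hn' : (0 : ℝ) < n := by exact_mod_cast hn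
  have hnu' : 4 * (n : ℝ) ≤ u := by exact_mod_cast hnu
  have hu' : (0 : ℝ) < u := by linarith
  set X0 : ℝ := u * i / n - y + 1 / 2 with hX0
  set X1 : ℝ := u * (i + 1) / n - y - 1 / 2 with hX1
  set L : Finset ℤ := Finset.Icc ⌈X0⌉ ⌊X1⌋ with hL
  set f : ℤ → Set ℝ := fun a => Set.Ioo ((a + y - α) / u) ((a + y + α) / u) with hf
  have hsub : (⋃ a ∈ L, f a) ⊆ {x : ℝ | x ∈ Set.Ioo ((i : ℝ) / n) (((i : ℝ) + 1) / n) ∧
        ∃ a : ℤ, |(u : ℝ) * x - a - y| < α} := by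
    intro x hx
    simp only [Set.mem_iUnion] at hx
    obtain ⟨a, ha, hxa⟩ := hx
    rw [hL, Finset.mem_Icc, Int.ceil_le, Int.le_floor] at ha
    obtain ⟨ha0, ha1⟩ := ha
    obtain ⟨hx0, hx1⟩ := hxa
    rw [div_lt_iff₀ hu'] at hx0
    rw [lt_div_iff₀ hu'] at hx1
    refine ⟨⟨?_, ?_⟩, a, ?_⟩
    · rw [div_lt_iff₀ hn']
      have h1 : (u : ℝ) * i / n < x * u := by linarith
      rw [div_lt_iff₀ hn'] at h1
      have h2 : (u : ℝ) * i < u * (x * n) := by linarith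
      exact lt_of_mul_lt_mul_left h2 hu'.le
    · rw [lt_div_iff₀ hn']
      have h1 : x * u < (u : ℝ) * (i + 1) / n := by linarith
      rw [lt_div_iff₀ hn'] at h1
      have h2 : (u : ℝ) * (x * n) < u * (i + 1) := by linarith
      exact lt_of_mul_lt_mul_left h2 hu'.le
    · rw [abs_lt]; constructor <;> linarith
  have hdisj : (L : Set ℤ).PairwiseDisjoint f := by
    intro a _ b _ hab
    wlog hlt : a < b generalizing a b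
    · exact (this (a := b) (b := a) (by assumption) (by assumption) (Ne.symm hab)
        (lt_of_le_of_ne (not_lt.mp hlt) (Ne.symm hab))).symm
    have hab' : (a : ℝ) + 1 ≤ b := by exact_mod_cast hlt
    rw [Function.onFun, Set.disjoint_left]
    rintro x ⟨_, hx1⟩ ⟨hx2, _⟩
    rw [lt_div_iff₀ hu'] at hx1
    rw [div_lt_iff₀ hu'] at hx2
    linarith
  have hmeas : volume (⋃ a ∈ L, f a) = ENNReal.ofReal (L.card * (2 * α / u)) := by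
    rw [measure_biUnion_finset hdisj (fun a _ => measurableSet_Ioo)]
    rw [ENNReal.ofReal_mul (by positivity), ENNReal.ofReal_natCast, ← nsmul_eq_mul,
      ← Finset.sum_const]
    apply Finset.sum_congr rfl
    intro a _
    rw [hf, Real.volume_Ioo]
    congr 1
    ring
  have hcard : (u : ℝ) / (2 * n) ≤ L.card := by
    rw [hL, Int.card_Icc]
    have h1 : X1 - 1 < ((⌊X1⌋ : ℤ) : ℝ) := Int.sub_one_lt_floor _
    have h2 : ((⌈X0⌉ : ℤ) : ℝ) < X0 + 1 := Int.ceil_lt_add_one _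
    have h3 : ((⌊X1⌋ + 1 - ⌈X0⌉ : ℤ) : ℝ) ≤ (((⌊X1⌋ + 1 - ⌈X0⌉).toNat : ℕ) : ℝ) := by
      exact_mod_cast Int.self_le_toNat _
    push_cast at h3
    have h4 : X1 - X0 = u / n - 1 := by
      rw [hX0, hX1]; field_simp; ring
    have h5 : (2 : ℝ) ≤ u / (2 * n) := by
      rw [le_div_iff₀ (by positivity)]; linarith
    have h6 : (u : ℝ) / n = 2 * (u / (2 * n)) := by field_simp
    linarith
  calc ENNReal.ofReal (α / n) ≤ ENNReal.ofReal (L.card * (2 * α / u)) := by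
        apply ENNReal.ofReal_le_ofReal
        calc α / n = (u / (2 * n)) * (2 * α / u) := by field_simp
          _ ≤ L.card * (2 * α / u) := by gcongr
    _ = volume (⋃ a ∈ L, f a) := hmeas.symm
    _ ≤ _ := measure_mono hsub

/-- The full approximation set. -/
def Aset (y : ℝ × ℝ) (ψ : ℕ → ℝ) (u : ℕ) : Set (ℝ × ℝ) :=
  {x | ∃ a b : ℤ, |(u : ℝ) * x.1 - a - y.1| < ψ u ∧ |(u : ℝ) * x.2 - b - y.2| < ψ u}

lemma isOpen_Aset (y : ℝ × ℝ) (ψ : ℕ → ℝ) (u : ℕ) : IsOpen (Aset y ψ u) := by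
  have : Aset y ψ u = ⋃ (a : ℤ) (b : ℤ), {x : ℝ × ℝ | |(u : ℝ) * x.1 - a - y.1| < ψ u ∧
      |(u : ℝ) * x.2 - b - y.2| < ψ u} := by
    ext x
    simp only [Aset, Set.mem_ofPred_eq, Set.mem_iUnion]
  rw [this]
  refine isOpen_iUnion fun a => isOpen_iUnion fun b => ?_
  apply IsOpen.and
  · exact isOpen_lt (by fun_prop) continuous_const
  · exact isOpen_lt (by fun_prop) continuous_const

lemma measurableSet_Bset (y : ℝ × ℝ) (ψ : ℕ → ℝ) (T1 T2 : ℕ → ℕ) (s1 s2 : ℕ → ℤ) (E0 u : ℕ) :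
    MeasurableSet (Bset y ψ T1 T2 s1 s2 E0 u) := by
  have : Bset y ψ T1 T2 s1 s2 E0 u = (Set.Icc (0 : ℝ) 1 ×ˢ Set.Icc (0 : ℝ) 1) ∩
      ⋃ (a : ℤ) (b : ℤ) (_ : ∀ e : ℕ, 0 < e → E0 ≤ e → e ∣ u →
      ¬ ((e : ℤ) ∣ T1 e * a + s1 e ∧ (e : ℤ) ∣ T2 e * b + s2 e)),
      {x : ℝ × ℝ | |(u : ℝ) * x.1 - a - y.1| < ψ u ∧ |(u : ℝ) * x.2 - b - y.2| < ψ u} := by
    ext x
    simp only [Bset, Set.mem_ofPred_eq, Set.mem_iUnion, Set.mem_inter_iff, Set.mem_prod,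
      exists_prop]
  rw [this]
  apply (measurableSet_Icc.prod measurableSet_Icc).inter
  refine MeasurableSet.iUnion fun a => MeasurableSet.iUnion fun b => MeasurableSet.iUnion fun _ => ?_
  apply IsOpen.measurableSet
  apply IsOpen.and
  · exact isOpen_lt (by fun_prop) continuous_const
  · exact isOpen_lt (by fun_prop) continuous_const

/-- The part of the approximation set which was thrown away. -/
def Eset (y : ℝ × ℝ) (ψ : ℕ → ℝ) (T1 T2 : ℕ → ℕ) (s1 s2 : ℕ → ℤ) (E0 u : ℕ) : Set (ℝ × ℝ) :=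
  {x | (x.1 ∈ Set.Icc (0 : ℝ) 1 ∧ x.2 ∈ Set.Icc (0 : ℝ) 1) ∧ ∃ e : ℕ, 0 < e ∧ E0 ≤ e ∧ e ∣ u ∧
    ∃ a b : ℤ, ((e : ℤ) ∣ T1 e * a + s1 e ∧ (e : ℤ) ∣ T2 e * b + s2 e) ∧
    |(u : ℝ) * x.1 - a - y.1| < ψ u ∧ |(u : ℝ) * x.2 - b - y.2| < ψ u}

lemma measure_class (y α : ℝ) (u e T : ℕ) (s : ℤ) (he : 0 < e) (heu : e ≤ u)
    (hco : IsCoprime (T : ℤ) s) (hα0 : 0 ≤ α) (hα : α ≤ 1 / 2) :
    volume {x : ℝ | x ∈ Set.Icc (0 : ℝ) 1 ∧ ∃ a : ℤ, (e : ℤ) ∣ T * a + s ∧ |u * x - a - y| < α}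
      ≤ ENNReal.ofReal (6 * α / e) := by
  by_cases hex : ∃ c : ℤ, (e : ℤ) ∣ T * c + s
  · obtain ⟨c, hc⟩ := hex
    refine le_trans (measure_mono ?_) (measure_res y α u e c he heu hα0 hα)
    rintro x ⟨hx, a, ha, hxa⟩
    refine ⟨hx, a, ?_, hxa⟩
    have h1 : IsCoprime ((T : ℤ) * c + s) (T : ℤ) := by
      obtain ⟨r, t, hrt⟩ := hco
      exact ⟨t, r - t * c, by linear_combination hrt⟩
    have h2 : IsCoprime (e : ℤ) (T : ℤ) := IsCoprime.of_isCoprime_of_dvd_left h1 hc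
    have h3 : (e : ℤ) ∣ T * (a - c) := by
      have := dvd_sub ha hc
      have e1 : (T : ℤ) * a + s - (T * c + s) = T * (a - c) := by ring
      rwa [e1] at this
    exact h2.dvd_of_dvd_mul_left h3
  · have : {x : ℝ | x ∈ Set.Icc (0 : ℝ) 1 ∧ ∃ a : ℤ, (e : ℤ) ∣ T * a + s ∧ |u * x - a - y| < α}
        = ∅ := by
      rw [Set.eq_empty_iff_forall_notMem]
      rintro x ⟨_, a, ha, _⟩
      exact hex ⟨a, ha⟩
    rw [this]; simp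

lemma measure_Eset (y : ℝ × ℝ) (ψ : ℕ → ℝ) (T1 T2 : ℕ → ℕ) (s1 s2 : ℕ → ℤ)
    (hA1 : Approx y.1 T1 s1) (hA2 : Approx y.2 T2 s2) (E0 u : ℕ) (hE0 : 0 < E0)
    (hu : 0 < u) (hu0 : 0 ≤ ψ u) (hu1 : ψ u ≤ 1 / 2) :
    volume (Eset y ψ T1 T2 s1 s2 E0 u) ≤ ENNReal.ofReal (72 * ψ u ^ 2 / E0) := by
  set L : Finset ℕ := (Nat.divisors u).filter (fun e => E0 ≤ e) with hL
  set D1 : ℕ → Set ℝ := fun e => {x : ℝ | x ∈ Set.Icc (0 : ℝ) 1 ∧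
    ∃ a : ℤ, (e : ℤ) ∣ T1 e * a + s1 e ∧ |u * x - a - y.1| < ψ u} with hD1
  set D2 : ℕ → Set ℝ := fun e => {x : ℝ | x ∈ Set.Icc (0 : ℝ) 1 ∧
    ∃ a : ℤ, (e : ℤ) ∣ T2 e * a + s2 e ∧ |u * x - a - y.2| < ψ u} with hD2
  have hsub : Eset y ψ T1 T2 s1 s2 E0 u ⊆ ⋃ e ∈ L, D1 e ×ˢ D2 e := by
    rintro x ⟨⟨hx1, hx2⟩, e, he0, heE, heu, a, b, ⟨h1, h2⟩, ha, hb⟩
    simp only [Set.mem_iUnion]
    refine ⟨e, ?_, ⟨hx1, a, h1, ha⟩, ⟨hx2, b, h2, hb⟩⟩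
    rw [hL, Finset.mem_filter, Nat.mem_divisors]
    exact ⟨⟨heu, hu.ne'⟩, heE⟩
  have hterm : ∀ e ∈ L, volume (D1 e ×ˢ D2 e) ≤ ENNReal.ofReal (36 * ψ u ^ 2 * ((e : ℝ) ^ 2)⁻¹) := by
    intro e he
    rw [hL, Finset.mem_filter, Nat.mem_divisors] at he
    obtain ⟨⟨heu, _⟩, heE⟩ := he
    have he0 : 0 < e := Nat.pos_of_dvd_of_pos heu hu
    have hle : e ≤ u := Nat.le_of_dvd hu heu
    obtain ⟨_, _, t3, _⟩ := hA1 e he0
    obtain ⟨_, _, r3, _⟩ := hA2 e he0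
    have m1 := measure_class y.1 (ψ u) u e (T1 e) (s1 e) he0 hle t3 hu0 hu1
    have m2 := measure_class y.2 (ψ u) u e (T2 e) (s2 e) he0 hle r3 hu0 hu1
    calc volume (D1 e ×ˢ D2 e) = volume (D1 e) * volume (D2 e) := by
          rw [Measure.volume_eq_prod, Measure.prod_prod]
      _ ≤ ENNReal.ofReal (6 * ψ u / e) * ENNReal.ofReal (6 * ψ u / e) := mul_le_mul' m1 m2
      _ = ENNReal.ofReal (36 * ψ u ^ 2 * ((e : ℝ) ^ 2)⁻¹) := by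
          rw [← ENNReal.ofReal_mul (by positivity)]
          congr 1
          rw [div_mul_div_comm, div_eq_mul_inv]
          ring_nf
  have hsum : ∑ e ∈ L, ((e : ℝ) ^ 2)⁻¹ ≤ 2 / E0 := by
    have h1 : ∑ e ∈ L, ((e : ℝ) ^ 2)⁻¹ ≤ ∑ e ∈ Finset.Ioo (E0 - 1) (u + 1), ((e : ℝ) ^ 2)⁻¹ := by
      apply Finset.sum_le_sum_of_subset_of_nonneg
      · intro e he
        rw [hL, Finset.mem_filter, Nat.mem_divisors] at he
        have := Nat.le_of_dvd hu he.1.1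
        rw [Finset.mem_Ioo]
        omega
      · intro i _ _; positivity
    have h2 := sum_Ioo_inv_sq_le (α := ℝ) (E0 - 1) (u + 1)
    have h5 : ((E0 - 1 : ℕ) : ℝ) + 1 = E0 := by
      rw [Nat.cast_sub hE0]; push_cast; ring
    rw [h5] at h2
    linarith
  calc volume (Eset y ψ T1 T2 s1 s2 E0 u) ≤ volume (⋃ e ∈ L, D1 e ×ˢ D2 e) := measure_mono hsub
    _ ≤ ∑ e ∈ L, volume (D1 e ×ˢ D2 e) := measure_biUnion_finset_le _ _
    _ ≤ ∑ e ∈ L, ENNReal.ofReal (36 * ψ u ^ 2 * ((e : ℝ) ^ 2)⁻¹) := Finset.sum_le_sum hterm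
    _ = ENNReal.ofReal (∑ e ∈ L, 36 * ψ u ^ 2 * ((e : ℝ) ^ 2)⁻¹) := by
        rw [ENNReal.ofReal_sum_of_nonneg (fun _ _ => by positivity)]
    _ ≤ ENNReal.ofReal (72 * ψ u ^ 2 / E0) := by
        apply ENNReal.ofReal_le_ofReal
        rw [← Finset.mul_sum]
        calc 36 * ψ u ^ 2 * ∑ e ∈ L, ((e : ℝ) ^ 2)⁻¹ ≤ 36 * ψ u ^ 2 * (2 / E0) := by gcongr
          _ = 72 * ψ u ^ 2 / E0 := by ring

/-- open grid square -/
def Osq (n i j : ℕ) : Set (ℝ × ℝ) :=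
  Set.Ioo ((i : ℝ) / n) (((i : ℝ) + 1) / n) ×ˢ Set.Ioo ((j : ℝ) / n) (((j : ℝ) + 1) / n)

lemma measure_lower_sq (y : ℝ × ℝ) (ψ : ℕ → ℝ) (u n i j : ℕ) (hn : 0 < n) (hnu : 4 * n ≤ u)
    (hu0 : 0 ≤ ψ u) (hu1 : ψ u ≤ 1 / 2) :
    ENNReal.ofReal (ψ u ^ 2 / n ^ 2) ≤ volume (Aset y ψ u ∩ Osq n i j) := by
  set D : ℝ → ℕ → Set ℝ := fun z i => {x : ℝ | x ∈ Set.Ioo ((i : ℝ) / n) (((i : ℝ) + 1) / n) ∧
        ∃ a : ℤ, |(u : ℝ) * x - a - z| < ψ u} with hD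
  have hsub : D y.1 i ×ˢ D y.2 j ⊆ Aset y ψ u ∩ Osq n i j := by
    rintro x ⟨⟨hx1, a, ha⟩, hx2, b, hb⟩
    exact ⟨⟨a, b, ha, hb⟩, hx1, hx2⟩
  calc ENNReal.ofReal (ψ u ^ 2 / n ^ 2) = ENNReal.ofReal (ψ u / n) * ENNReal.ofReal (ψ u / n) := by
        rw [← ENNReal.ofReal_mul (by positivity)]; congr 1; ring
    _ ≤ volume (D y.1 i) * volume (D y.2 j) :=
        mul_le_mul' (measure_lower y.1 (ψ u) u n i hn hnu hu0 hu1)
          (measure_lower y.2 (ψ u) u n j hn hnu hu0 hu1)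
    _ = volume (D y.1 i ×ˢ D y.2 j) := by rw [Measure.volume_eq_prod, Measure.prod_prod]
    _ ≤ _ := measure_mono hsub

end Pool.Agent.Helper19
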