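import Mathlib
import Pool.Agent.Helper19.Khin8

set_option autoImplicit false

open MeasureTheory

namespace Pool.Agent.Helper19

/-- A quantitative `L^2` argument. -/
lemma l2_bound {Ω : Type*} [MeasurableSpace Ω] (μ : Measure Ω) (B : ℕ → Set Ω)
    (hB : ∀ u, MeasurableSet (B u)) (hBfin : ∀ u, μ (B u) ≠ ⊤) (D : Set Ω) (hD : MeasurableSet D)
    (hDfin : μ D ≠ ⊤) (F : Finset ℕ) (t : ℝ) (ht : 0 < t) :
    ∑ u ∈ F, (μ (B u ∩ D)).toReal ≤
      t / 2 * ∑ u ∈ F, ∑ v ∈ F, (μ (B u ∩ B v)).toReal + 1 / (2 * t) * (μ D).toReal := by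
  set ν : Measure Ω := μ.restrict D with hν
  have : IsFiniteMeasure ν := ⟨by rw [hν, Measure.restrict_apply_univ]; exact hDfin.lt_top⟩
  set ind : ℕ → Ω → ℝ := fun u => (B u).indicator 1 with hind
  have hint : ∀ u, Integrable (ind u) ν := by
    intro u
    exact (integrable_indicator_iff (hB u)).mpr (integrable_const (1 : ℝ)).integrableOn
  have hint2 : ∀ u v, Integrable (fun x => ind u x * ind v x) ν := by
    intro u v
    have : (fun x => ind u x * ind v x) = (B u ∩ B v).indicator 1 := by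
      ext x
      simp only [hind, Set.indicator_apply, Set.mem_inter_iff, Pi.one_apply]
      by_cases h1 : x ∈ B u <;> by_cases h2 : x ∈ B v <;> simp [h1, h2]
    rw [this]
    exact (integrable_indicator_iff ((hB u).inter (hB v))).mpr
      (integrable_const (1 : ℝ)).integrableOn
  have h1 : ∀ u, ∫ x, ind u x ∂ν = (μ (B u ∩ D)).toReal := by
    intro u
    simp only [hind]
    rw [integral_indicator_one (hB u), Measure.real, hν, Measure.restrict_apply (hB u)]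
  have h2 : ∀ u v, ∫ x, ind u x * ind v x ∂ν ≤ (μ (B u ∩ B v)).toReal := by
    intro u v
    have : (fun x => ind u x * ind v x) = (B u ∩ B v).indicator 1 := by
      ext x
      simp only [hind, Set.indicator_apply, Set.mem_inter_iff, Pi.one_apply]
      by_cases h1 : x ∈ B u <;> by_cases h2 : x ∈ B v <;> simp [h1, h2]
    rw [this, integral_indicator_one ((hB u).inter (hB v)), Measure.real, hν,
      Measure.restrict_apply ((hB u).inter (hB v))]
    apply ENNReal.toReal_mono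
    · exact ne_top_of_le_ne_top (hBfin u) (measure_mono Set.inter_subset_left)
    · exact measure_mono Set.inter_subset_left
  have hpt : ∀ x, ∑ u ∈ F, ind u x ≤ t / 2 * (∑ u ∈ F, ∑ v ∈ F, ind u x * ind v x)
      + 1 / (2 * t) := by
    intro x
    rw [← Finset.sum_mul_sum]
    set z := ∑ u ∈ F, ind u x
    have h3 : 0 ≤ (t * z - 1) ^ 2 := sq_nonneg _
    have h4 : t / 2 * (z * z) + 1 / (2 * t) - z = (t * z - 1) ^ 2 / (2 * t) := by
      field_simp; ring
    have h5 : 0 ≤ (t * z - 1) ^ 2 / (2 * t) := by positivity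
    linarith
  have hI1 : Integrable (fun x => ∑ u ∈ F, ind u x) ν := integrable_finsetSum _ (fun u _ => hint u)
  have hI2 : Integrable (fun x => ∑ u ∈ F, ∑ v ∈ F, ind u x * ind v x) ν :=
    integrable_finsetSum _ (fun u _ => integrable_finsetSum _ (fun v _ => hint2 u v))
  have key := integral_mono hI1 ((hI2.const_mul (t / 2)).add (integrable_const (1 / (2 * t)))) hpt
  have e1 : ∫ x, ∑ u ∈ F, ind u x ∂ν = ∑ u ∈ F, (μ (B u ∩ D)).toReal := by
    rw [integral_finsetSum _ (fun u _ => hint u)]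
    exact Finset.sum_congr rfl (fun u _ => h1 u)
  have e2 : ∫ x, (t / 2 * (∑ u ∈ F, ∑ v ∈ F, ind u x * ind v x) + 1 / (2 * t)) ∂ν
      = t / 2 * ∑ u ∈ F, ∑ v ∈ F, ∫ x, ind u x * ind v x ∂ν + 1 / (2 * t) * (μ D).toReal := by
    rw [integral_add (hI2.const_mul (t / 2)) (integrable_const _), integral_const_mul,
      integral_finsetSum _ (fun u _ => integrable_finsetSum _ (fun v _ => hint2 u v)),
      integral_const, smul_eq_mul, Measure.real, hν, Measure.restrict_apply_univ]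
    congr 1
    · congr 1
      apply Finset.sum_congr rfl
      intro u _
      rw [integral_finsetSum _ (fun v _ => hint2 u v)]
    · ring
  rw [e1] at key
  have key' : ∑ u ∈ F, (μ (B u ∩ D)).toReal ≤
      ∫ x, (t / 2 * (∑ u ∈ F, ∑ v ∈ F, ind u x * ind v x) + 1 / (2 * t)) ∂ν := key
  rw [e2] at key'
  have h6 : ∑ u ∈ F, ∑ v ∈ F, ∫ x, ind u x * ind v x ∂ν
      ≤ ∑ u ∈ F, ∑ v ∈ F, (μ (B u ∩ B v)).toReal :=
    Finset.sum_le_sum (fun u _ => Finset.sum_le_sum (fun v _ => h2 u v))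
  have h7 : t / 2 * ∑ u ∈ F, ∑ v ∈ F, ∫ x, ind u x * ind v x ∂ν
      ≤ t / 2 * ∑ u ∈ F, ∑ v ∈ F, (μ (B u ∩ B v)).toReal := by gcongr
  linarith

/-- closed grid square -/
def Csq (n i j : ℕ) : Set (ℝ × ℝ) :=
  Set.Icc ((i : ℝ) / n) (((i : ℝ) + 1) / n) ×ˢ Set.Icc ((j : ℝ) / n) (((j : ℝ) + 1) / n)

lemma volume_Csq (n i j : ℕ) (hn : 0 < n) : volume (Csq n i j) = ENNReal.ofReal (1 / n ^ 2) := by
  have hn' : (0 : ℝ) < n := by exact_mod_cast hn
  unfold Csq
  rw [Measure.volume_eq_prod, Measure.prod_prod, Real.volume_Icc, Real.volume_Icc,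
    ← ENNReal.ofReal_mul]
  · congr 1; field_simp; ring
  · have : ((i : ℝ) + 1) / n - i / n = 1 / n := by ring
    rw [this]; positivity

lemma exists_index (n : ℕ) (hn : 0 < n) (x : ℝ) (hx : x ∈ Set.Icc (0 : ℝ) 1) :
    ∃ i < n, x ∈ Set.Icc ((i : ℝ) / n) (((i : ℝ) + 1) / n) := by
  have hn' : (0 : ℝ) < n := by exact_mod_cast hn
  obtain ⟨hx0, hx1⟩ := hx
  rcases eq_or_lt_of_le hx1 with h | h
  · refine ⟨n - 1, by omega, ?_, ?_⟩
    · rw [h, div_le_one hn']; exact_mod_cast Nat.sub_le n 1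
    · rw [h, le_div_iff₀ hn', Nat.cast_sub hn]; push_cast; linarith
  · refine ⟨⌊x * n⌋₊, ?_, ?_, ?_⟩
    · rw [Nat.floor_lt (by positivity)]; nlinarith
    · rw [div_le_iff₀ hn']; exact Nat.floor_le (by positivity)
    · rw [le_div_iff₀ hn']; exact (Nat.lt_floor_add_one _).le

lemma Osq_disjoint (n : ℕ) (hn : 0 < n) (s : Set (ℕ × ℕ)) :
    s.PairwiseDisjoint (fun ij : ℕ × ℕ => Osq n ij.1 ij.2) := by
  have hn' : (0 : ℝ) < n := by exact_mod_cast hn
  have key : ∀ (i j : ℕ) (x : ℝ), x ∈ Set.Ioo ((i : ℝ) / n) (((i : ℝ) + 1) / n) →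
      x ∈ Set.Ioo ((j : ℝ) / n) (((j : ℝ) + 1) / n) → i = j := by
    rintro i j x ⟨h1, h2⟩ ⟨h3, h4⟩
    rw [div_lt_iff₀ hn'] at h1 h3
    rw [lt_div_iff₀ hn'] at h2 h4
    have h5 : (i : ℝ) < j + 1 := by linarith
    have h6 : (j : ℝ) < i + 1 := by linarith
    have h5' : i < j + 1 := by exact_mod_cast h5
    have h6' : j < i + 1 := by exact_mod_cast h6
    omega
  intro a _ b _ hab
  rw [Function.onFun, Set.disjoint_left]
  rintro x ⟨h1, h2⟩ ⟨h3, h4⟩
  exact hab (Prod.ext (key _ _ _ h1 h3) (key _ _ _ h2 h4))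

open Classical in
/-- Main step: no positive measure set of exceptions, for `ψ ≤ 1/2`. -/
lemma main_step (y : ℝ × ℝ) (ψ : ℕ → ℝ) (hψ0 : ∀ v, 0 ≤ ψ v) (hψ1 : ∀ v, ψ v ≤ 1 / 2)
    (hdiv : ¬ Summable (fun q : ℕ => ψ q ^ 2)) (N : ℕ) :
    volume {x : ℝ × ℝ | (x.1 ∈ Set.Icc (0 : ℝ) 1 ∧ x.2 ∈ Set.Icc (0 : ℝ) 1) ∧
      ∀ u, N ≤ u → x ∉ Aset y ψ u} = 0 := by
  set K : Set (ℝ × ℝ) := {x : ℝ × ℝ | (x.1 ∈ Set.Icc (0 : ℝ) 1 ∧ x.2 ∈ Set.Icc (0 : ℝ) 1) ∧
      ∀ u, N ≤ u → x ∉ Aset y ψ u} with hK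
  obtain ⟨T1, s1, hA1⟩ := exists_Approx y.1
  obtain ⟨T2, s2, hA2⟩ := exists_Approx y.2
  have hKeq : K = (Set.Icc (0 : ℝ) 1 ×ˢ Set.Icc (0 : ℝ) 1) ∩ ⋂ (u : ℕ) (_ : N ≤ u),
      (Aset y ψ u)ᶜ := by
    ext x
    simp only [hK, Set.mem_ofPred_eq, Set.mem_inter_iff, Set.mem_prod, Set.mem_iInter,
      Set.mem_compl_iff]
  have hKcomp : IsCompact K := by
    rw [hKeq]
    apply (isCompact_Icc.prod isCompact_Icc).inter_right
    exact isClosed_iInter fun u => isClosed_iInter fun _ => (isOpen_Aset y ψ u).isClosed_compl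
  have hKmeas : MeasurableSet K := hKcomp.measurableSet
  have hKfin : volume K ≠ ⊤ := hKcomp.measure_lt_top.ne
  by_contra hne
  set κ : ℝ := (volume K).toReal with hκ
  have hκpos : 0 < κ := ENNReal.toReal_pos hne hKfin
  obtain ⟨E0, hE0⟩ : ∃ E0 : ℕ, 144 / κ < E0 := exists_nat_gt _
  have hE0pos' : (0 : ℝ) < E0 := lt_trans (by positivity) hE0
  have hE0pos : 0 < E0 := by exact_mod_cast hE0pos'
  have hE0κ : 72 / (E0 : ℝ) ≤ κ / 2 := by
    rw [div_lt_iff₀ hκpos] at hE0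
    rw [div_le_iff₀ hE0pos']
    linarith
  set C : ℝ := 4608 + (576 * E0 + 46692) with hC
  have hCpos : 0 < C := by positivity
  set ε : ℝ := κ / (4 * C) with hε
  have hεpos : 0 < ε := by positivity
  have hεC : ε / 2 * C = κ / 8 := by rw [hε]; field_simp; norm_num
  set η : ℝ := ε * κ / 4 with hη
  have hηpos : 0 < η := by positivity
  -- choose the grid
  have hlim := tendsto_measure_cthickening_of_isCompact (μ := (volume : Measure (ℝ × ℝ))) hKcomp
  have hev : ∀ᶠ r in nhds (0 : ℝ), volume (Metric.cthickening r K) < volume K + ENNReal.ofReal η := by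
    apply (tendsto_order.1 hlim).2
    exact ENNReal.lt_add_right hKfin (by simpa using hηpos)
  obtain ⟨δ, hδ, hδball⟩ := Metric.eventually_nhds_iff.mp hev
  obtain ⟨n, hn⟩ : ∃ n : ℕ, 1 / δ < n := exists_nat_gt _
  have hn' : (0 : ℝ) < n := lt_trans (by positivity) hn
  have hn0 : 0 < n := by exact_mod_cast hn'
  have hnδ : 1 / (n : ℝ) < δ := by
    rw [div_lt_iff₀ hδ] at hn
    rw [div_lt_iff₀ hn']
    linarith
  have hcth : volume (Metric.cthickening (1 / (n : ℝ)) K) < volume K + ENNReal.ofReal η := by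
    apply hδball
    rw [Real.dist_eq, sub_zero, abs_of_pos (by positivity)]
    exact hnδ
  set I : Finset (ℕ × ℕ) := (Finset.range n ×ˢ Finset.range n).filter
    (fun ij => (Csq n ij.1 ij.2 ∩ K).Nonempty) with hI
  set V : Set (ℝ × ℝ) := ⋃ ij ∈ I, Osq n ij.1 ij.2 with hV
  have hKcov : K ⊆ ⋃ ij ∈ I, Csq n ij.1 ij.2 := by
    intro x hx
    obtain ⟨i, hi, hxi⟩ := exists_index n hn0 x.1 hx.1.1
    obtain ⟨j, hj, hxj⟩ := exists_index n hn0 x.2 hx.1.2
    simp only [Set.mem_iUnion]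
    refine ⟨(i, j), ?_, ⟨hxi, hxj⟩⟩
    rw [hI, Finset.mem_filter, Finset.mem_product, Finset.mem_range, Finset.mem_range]
    exact ⟨⟨hi, hj⟩, x, ⟨hxi, hxj⟩, hx⟩
  have hIcard : κ ≤ I.card * (1 / (n : ℝ) ^ 2) := by
    have : volume K ≤ ENNReal.ofReal (I.card * (1 / (n : ℝ) ^ 2)) := by
      calc volume K ≤ volume (⋃ ij ∈ I, Csq n ij.1 ij.2) := measure_mono hKcov
        _ ≤ ∑ ij ∈ I, volume (Csq n ij.1 ij.2) := measure_biUnion_finset_le _ _
        _ = ∑ ij ∈ I, ENNReal.ofReal (1 / (n : ℝ) ^ 2) :=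
            Finset.sum_congr rfl (fun ij _ => volume_Csq n ij.1 ij.2 hn0)
        _ = _ := by
            rw [Finset.sum_const, nsmul_eq_mul, ENNReal.ofReal_mul (by positivity),
              ENNReal.ofReal_natCast]
    exact ENNReal.toReal_le_of_le_ofReal (by positivity) this
  have hVmeas : MeasurableSet V :=
    Finset.measurableSet_biUnion _ (fun ij _ => measurableSet_Ioo.prod measurableSet_Ioo)
  have hVcth : V ⊆ Metric.cthickening (1 / (n : ℝ)) K := by
    intro x hx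
    simp only [hV, Set.mem_iUnion] at hx
    obtain ⟨ij, hij, hx1, hx2⟩ := hx
    rw [hI, Finset.mem_filter] at hij
    obtain ⟨_, z, ⟨hz1, hz2⟩, hzK⟩ := hij
    apply Metric.mem_cthickening_of_dist_le x z _ _ hzK
    rw [Prod.dist_eq, max_le_iff, Real.dist_eq, Real.dist_eq]
    have e : ∀ i : ℕ, ((i : ℝ) + 1) / n = i / n + 1 / n := fun i => by ring
    rw [e] at hx1 hx2 hz1 hz2
    constructor
    · rw [abs_le]; constructor <;> linarith [hx1.1, hx1.2, hz1.1, hz1.2]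
    · rw [abs_le]; constructor <;> linarith [hx2.1, hx2.2, hz2.1, hz2.2]
  have hVsub : V ⊆ Set.Icc (0 : ℝ) 1 ×ˢ Set.Icc (0 : ℝ) 1 := by
    intro x hx
    simp only [hV, Set.mem_iUnion] at hx
    obtain ⟨ij, hij, hx1, hx2⟩ := hx
    rw [hI, Finset.mem_filter, Finset.mem_product, Finset.mem_range, Finset.mem_range] at hij
    have key : ∀ (i : ℕ) (z : ℝ), i < n → z ∈ Set.Ioo ((i : ℝ) / n) (((i : ℝ) + 1) / n) →
        z ∈ Set.Icc (0 : ℝ) 1 := by
      rintro i z hi ⟨h1, h2⟩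
      have hi' : (i : ℝ) + 1 ≤ n := by exact_mod_cast hi
      have h3 : ((i : ℝ) + 1) / n ≤ 1 := by rw [div_le_one hn']; exact hi'
      have h4 : 0 ≤ (i : ℝ) / n := by positivity
      exact ⟨by linarith, by linarith⟩
    exact ⟨key _ _ hij.1.1 hx1, key _ _ hij.1.2 hx2⟩
  set D : Set (ℝ × ℝ) := V \ K with hD
  have hDmeas : MeasurableSet D := hVmeas.diff hKmeas
  have hDη : volume D ≤ ENNReal.ofReal η := by
    have h1 : volume D ≤ volume (Metric.cthickening (1 / (n : ℝ)) K \ K) :=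
      measure_mono (Set.sdiff_subset_sdiff_left hVcth)
    have h2 : volume (Metric.cthickening (1 / (n : ℝ)) K \ K)
        = volume (Metric.cthickening (1 / (n : ℝ)) K) - volume K :=
      measure_sdiff (Metric.self_subset_cthickening K) hKmeas.nullMeasurableSet hKfin
    rw [h2] at h1
    refine le_trans h1 ?_
    rw [tsub_le_iff_left]
    exact hcth.le
  have hDfin : volume D ≠ ⊤ := ne_top_of_le_ne_top ENNReal.ofReal_ne_top hDη
  have hDη' : (volume D).toReal ≤ η := ENNReal.toReal_le_of_le_ofReal hηpos.le hDη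
  -- choose F
  set N' : ℕ := max (4 * n) (max N 1) with hN'
  obtain ⟨F, hF1, hF2⟩ : ∃ F : Finset ℕ, (∀ u ∈ F, N' ≤ u) ∧ 1 ≤ ∑ u ∈ F, ψ u ^ 2 := by
    by_contra hcon
    push Not at hcon
    apply hdiv
    rw [← summable_nat_add_iff N']
    apply summable_of_sum_le (c := 1)
    · intro i; positivity
    · intro G
      have h1 := hcon (G.map ⟨fun i => i + N', fun a b h => by simpa using h⟩) (by
        intro u hu
        rw [Finset.mem_map] at hu
        obtain ⟨a, _, rfl⟩ := hu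
        exact Nat.le_add_left N' a)
      rw [Finset.sum_map] at h1
      exact h1.le
  set B : ℕ → Set (ℝ × ℝ) := fun u => Bset y ψ T1 T2 s1 s2 E0 u with hB
  set S : ℝ := ∑ u ∈ F, ψ u ^ 2 with hS
  have hFpos : ∀ u ∈ F, 0 < u := fun u hu => by
    have := hF1 u hu
    omega
  have hBsub : ∀ u, B u ⊆ Set.Icc (0 : ℝ) 1 ×ˢ Set.Icc (0 : ℝ) 1 := fun u x hx => hx.1
  have hBfin : ∀ u, volume (B u) ≠ ⊤ := fun u =>
    ne_top_of_le_ne_top (isCompact_Icc.prod isCompact_Icc).measure_lt_top.ne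
      (measure_mono (hBsub u))
  -- lower bound
  have hlow : ∀ u ∈ F, κ / 2 * ψ u ^ 2 ≤ (volume (B u ∩ D)).toReal := by
    intro u hu
    have hu' := hF1 u hu
    have hun : 4 * n ≤ u := by omega
    have huN : N ≤ u := by omega
    have hu0 : 0 < u := hFpos u hu
    have h1 : ENNReal.ofReal (κ * ψ u ^ 2) ≤ volume (Aset y ψ u ∩ V) := by
      have e1 : Aset y ψ u ∩ V = ⋃ ij ∈ I, (Aset y ψ u ∩ Osq n ij.1 ij.2) := by
        rw [hV, Set.inter_iUnion₂]
      rw [e1, measure_biUnion_finset]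
      · calc ENNReal.ofReal (κ * ψ u ^ 2)
            ≤ ENNReal.ofReal (I.card * (ψ u ^ 2 / n ^ 2)) := by
              apply ENNReal.ofReal_le_ofReal
              calc κ * ψ u ^ 2 ≤ (I.card * (1 / (n : ℝ) ^ 2)) * ψ u ^ 2 := by gcongr
                _ = I.card * (ψ u ^ 2 / n ^ 2) := by ring
          _ = ∑ ij ∈ I, ENNReal.ofReal (ψ u ^ 2 / n ^ 2) := by
              rw [Finset.sum_const, nsmul_eq_mul, ENNReal.ofReal_mul (by positivity),
                ENNReal.ofReal_natCast]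
          _ ≤ _ := Finset.sum_le_sum
              (fun ij _ => measure_lower_sq y ψ u n ij.1 ij.2 hn0 hun (hψ0 u) (hψ1 u))
      · intro a ha b hb hab
        exact (Osq_disjoint n hn0 (I : Set (ℕ × ℕ)) ha hb hab).mono
          Set.inter_subset_right Set.inter_subset_right
      · intro ij _
        exact (isOpen_Aset y ψ u).measurableSet.inter (measurableSet_Ioo.prod measurableSet_Ioo)
    have h2 : Aset y ψ u ∩ V ⊆ (B u ∩ D) ∪ Eset y ψ T1 T2 s1 s2 E0 u := by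
      rintro x ⟨⟨a, b, ha, hb⟩, hxV⟩
      have hx01 := hVsub hxV
      by_cases hexc : ∃ e : ℕ, 0 < e ∧ E0 ≤ e ∧ e ∣ u ∧
        ((e : ℤ) ∣ T1 e * a + s1 e ∧ (e : ℤ) ∣ T2 e * b + s2 e)
      · right
        obtain ⟨e, he0, heE, heu, hee⟩ := hexc
        exact ⟨hx01, e, he0, heE, heu, a, b, hee, ha, hb⟩
      · left
        refine ⟨⟨hx01, a, b, ?_, ha, hb⟩, hxV, ?_⟩
        · intro e he0 heE heu hee
          exact hexc ⟨e, he0, heE, heu, hee⟩
        · intro hxK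
          exact hxK.2 u huN ⟨a, b, ha, hb⟩
    have h3 : ENNReal.ofReal (κ * ψ u ^ 2) ≤ volume (B u ∩ D) + ENNReal.ofReal (72 * ψ u ^ 2 / E0) :=
      calc ENNReal.ofReal (κ * ψ u ^ 2) ≤ volume (Aset y ψ u ∩ V) := h1
        _ ≤ volume ((B u ∩ D) ∪ Eset y ψ T1 T2 s1 s2 E0 u) := measure_mono h2
        _ ≤ volume (B u ∩ D) + volume (Eset y ψ T1 T2 s1 s2 E0 u) := measure_union_le _ _
        _ ≤ _ := by
            gcongr
            exact measure_Eset y ψ T1 T2 s1 s2 hA1 hA2 E0 u hE0pos hu0 (hψ0 u) (hψ1 u)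
    have hfin : volume (B u ∩ D) ≠ ⊤ :=
      ne_top_of_le_ne_top (hBfin u) (measure_mono Set.inter_subset_left)
    have h4 : κ * ψ u ^ 2 ≤ (volume (B u ∩ D)).toReal + 72 * ψ u ^ 2 / E0 := by
      have h5 := ENNReal.toReal_mono (by finiteness) h3
      rw [ENNReal.toReal_ofReal (by positivity), ENNReal.toReal_add hfin ENNReal.ofReal_ne_top,
        ENNReal.toReal_ofReal (by positivity)] at h5
      exact h5
    have h6 : 72 * ψ u ^ 2 / E0 ≤ κ / 2 * ψ u ^ 2 := by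
      calc 72 * ψ u ^ 2 / E0 = (72 / (E0 : ℝ)) * ψ u ^ 2 := by ring
        _ ≤ κ / 2 * ψ u ^ 2 := by gcongr
    linarith
  have hlowS : κ / 2 * S ≤ ∑ u ∈ F, (volume (B u ∩ D)).toReal := by
    rw [hS, Finset.mul_sum]
    exact Finset.sum_le_sum hlow
  have hSpos : 0 < S := by linarith
  have hup := l2_bound volume B (fun u => measurableSet_Bset y ψ T1 T2 s1 s2 E0 u) hBfin D hDmeas
    hDfin F (ε / S) (by positivity)
  have hsm := second_moment y ψ T1 T2 s1 s2 hA1 hA2 E0 F hFpos hψ0 hψ1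
  rw [← hS] at hsm
  have hsm' : ∑ u ∈ F, ∑ v ∈ F, (volume (B u ∩ B v)).toReal ≤ C * S ^ 2 := by
    refine le_trans hsm ?_
    rw [hC]
    have : S ≤ S ^ 2 := by nlinarith
    have h0 : (0 : ℝ) ≤ 576 * E0 + 46692 := by positivity
    nlinarith
  have h7 : ε / S / 2 * ∑ u ∈ F, ∑ v ∈ F, (volume (B u ∩ B v)).toReal ≤ κ / 8 * S := by
    calc ε / S / 2 * ∑ u ∈ F, ∑ v ∈ F, (volume (B u ∩ B v)).toReal
        ≤ ε / S / 2 * (C * S ^ 2) := by gcongr
      _ = (ε / 2 * C) * S := by field_simp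
      _ = κ / 8 * S := by rw [hεC]
  have h8 : 1 / (2 * (ε / S)) * (volume D).toReal ≤ κ / 8 * S := by
    calc 1 / (2 * (ε / S)) * (volume D).toReal ≤ 1 / (2 * (ε / S)) * η := by gcongr
      _ = κ / 8 * S := by rw [hη]; field_simp; norm_num
  nlinarith

end Pool.Agent.Helper19
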